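import Mathlib

set_option autoImplicit false

namespace Pool.Agent.H.MP_bcbcf8_co

variable {V E : Type} (ends : E → Sym2 V)

/-- `c` is a 3-edge colouring: distinct edges with a common end have different colours. -/
def IsCol (c : E → Fin 3) : Prop :=
  ∀ (v : V) (f g : E), v ∈ ends f → v ∈ ends g → f ≠ g → c f ≠ c g

/-- `e` is removable: the edges other than `e` can be coloured with three colours so that distinct
edges with a common end which is not an end of `e` have different colours, and the edges other than
`e` at an end of `e` have the same colour. -/
def Removable (e : E) : Prop :=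
  ∃ c : E → Fin 3,
    (∀ (v : V) (f g : E), v ∉ ends e → v ∈ ends f → v ∈ ends g → f ≠ g → c f ≠ c g) ∧
    (∀ (v : V) (f g : E), v ∈ ends e → v ∈ ends f → v ∈ ends g → f ≠ e → g ≠ e → c f = c g)

end Pool.Agent.H.MP_bcbcf8_co
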