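import Mathlib

/-!
# The word identities

For a proper cyclic word `w` of length `m` with three letters and a position `i`, let the pattern
be the list of the truth values `w (i + j) = w i`, `0 < j < m`, and the sign `1` if
`w (i - 1) = w (i + 1)` and `-1` otherwise. For `2 ≤ m ≤ 13` there is a table `α` of integers
indexed by the patterns with `∑ i, sign * α (pattern) + Λ = D * #{letters occurring exactly once}`
for every proper cyclic word, with `Λ > 0`. This file contains the tables and the verification.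
-/

set_option autoImplicit false

namespace Pool.Agent.H.MP_bcbcf8_co

/-- Binary tries with integer leaves. -/
inductive Tr : Type
  | l : Int → Tr
  | n : Tr → Tr → Tr

/-- The zero table. -/
def Z : Tr := .l 0

/-- Look up. -/
def look : Tr → List Bool → Int
  | .l v, _ => v
  | .n _ _, [] => 0
  | .n a _, false :: t => look a t
  | .n _ b, true :: t => look b t

/-- The pattern. -/
def pat (a : ℕ) : List ℕ → List Bool
  | [] => []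
  | x :: t => Nat.beq x a :: pat a t

/-- The last letter. -/
def lst : ℕ → List ℕ → ℕ
  | a, [] => a
  | _, x :: t => lst x t

/-- The first letter. -/
def fst : List ℕ → ℕ
  | [] => 9
  | x :: _ => x

/-- The summand of the position `0`. -/
def fval (tr : Tr) : List ℕ → Int
  | [] => 0
  | a :: t =>
    match Nat.beq (fst t) (lst a t) with
    | true => look tr (pat a t)
    | false => - look tr (pat a t)

/-- Rotation. -/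
def rot : List ℕ → List ℕ
  | [] => []
  | a :: t => t ++ [a]

/-- The sum over the first `n` positions. -/
def tot (tr : Tr) : ℕ → List ℕ → Int
  | 0, _ => 0
  | n + 1, l => fval tr l + tot tr n (rot l)

/-- The number of occurrences. -/
def cnt (c : ℕ) : List ℕ → ℕ
  | [] => 0
  | x :: t => match Nat.beq x c with
    | true => cnt c t + 1
    | false => cnt c t

/-- Occurring exactly once. -/
def one (c : ℕ) (l : List ℕ) : Int :=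
  match Nat.beq (cnt c l) 1 with
  | true => 1
  | false => 0

/-- The identity. -/
def ok (tr : Tr) (D L : Int) (m : ℕ) (l : List ℕ) : Bool :=
  decide (tot tr m l + L = D * (one 0 l + one 1 l + one 2 l))

/-- The identity for all proper cyclic words of which the last letters are `l`. -/
def enum (tr : Tr) (D L : Int) (m : ℕ) : ℕ → List ℕ → Bool
  | 0, l => Nat.beq (fst l) (lst 9 l) || ok tr D L m l
  | n + 1, l =>
    (Nat.beq 0 (fst l) || enum tr D L m n (0 :: l)) &&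
    (Nat.beq 1 (fst l) || enum tr D L m n (1 :: l)) &&
    (Nat.beq 2 (fst l) || enum tr D L m n (2 :: l))

/-- The table for cycles of length 2. -/
def tr2 : Tr :=
    Z

/-- The table for cycles of length 3. -/
def tr3 : Tr :=
    Z

/-- The table for cycles of length 4. -/
def tr4 : Tr :=
    (.n (.n Z (.n (.l (-1)) Z)) Z)

/-- The table for cycles of length 5. -/
def tr5 : Tr :=
    Z

/-- The table for cycles of length 6. -/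
def tr6 : Tr :=
    (.n (.n (.n (.n Z (.n (.l 2) Z)) (.n (.n (.l 1) Z) Z)) (.n (.n (.n (.l 2) Z) (.n (.l (-1))
    Z)) Z)) Z)

/-- The table for cycles of length 7. -/
def tr7 : Tr :=
    (.n (.n Z (.n (.n (.n Z (.n (.l 1) Z)) Z) Z)) Z)

/-- The table for cycles of length 8. -/
def tr8 : Tr :=
    (.n (.n (.n (.n (.n (.n Z (.n (.l (-2)) Z)) (.n (.n (.l 11) Z) Z)) (.n (.n (.n (.l (-3)) Z)
    (.n (.l 10) Z)) Z)) (.n (.n (.n (.n (.l 11) Z) Z) (.n (.n (.l (-7)) Z) Z)) Z)) (.n (.n (.n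
    (.n (.n (.l (-2)) Z) (.n (.l 15) Z)) Z) (.n (.n (.n (.l 10) Z) (.n (.l (-1)) Z)) Z)) Z)) Z)

/-- The table for cycles of length 9. -/
def tr9 : Tr :=
    (.n (.n (.n (.n (.n Z (.n (.n Z (.n (.l (-6)) Z)) Z)) (.n (.n (.n Z (.n (.l 10) Z)) (.n (.n
    (.l 7) Z) Z)) Z)) (.n (.n (.n (.n Z (.n (.l (-12)) Z)) (.n (.n (.l 1) Z) Z)) (.n (.n (.n (.l
    7) Z) Z) Z)) Z)) (.n (.n (.n (.n (.n Z (.n (.l (-9)) Z)) (.n (.n (.l (-12)) Z) Z)) (.n (.n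
    (.n (.l 10) Z) (.n (.l 19) Z)) Z)) (.n (.n (.n (.n (.l (-6)) Z) (.n (.l 19) Z)) Z) Z)) Z))
    Z)

/-- The table for cycles of length 10. -/
def tr10 : Tr :=
    (.n (.n (.n (.n (.n (.n (.n (.n Z (.n (.l (-64)) Z)) (.n (.n (.l (-5)) Z) Z)) (.n (.n (.n
    (.l 89) Z) (.n (.l 52) Z)) Z)) (.n (.n (.n (.n (.l 5) Z) (.n (.l 42) Z)) (.n (.n (.l (-37))
    Z) Z)) Z)) (.n (.n (.n (.n (.n (.l 89) Z) (.n (.l (-66)) Z)) Z) (.n (.n (.n (.l (-59)) Z)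
    (.n (.l 38) Z)) Z)) Z)) (.n (.n (.n (.n (.n (.n (.l (-5)) Z) Z) (.n (.n (.l 79) Z) Z)) (.n
    (.n Z (.n (.l (-79)) Z)) Z)) (.n (.n (.n (.n (.l (-37)) Z) (.n (.l 42) Z)) (.n (.n (.l 10)
    Z) Z)) Z)) Z)) (.n (.n (.n (.n (.n (.n (.n (.l (-64)) Z) (.n (.l 15) Z)) Z) (.n (.n (.n (.l
    (-66)) Z) (.n (.l 43) Z)) Z)) (.n (.n (.n (.n (.l 42) Z) Z) (.n (.n (.l 42) Z) Z)) Z)) (.n
    (.n (.n (.n (.n (.l 52) Z) (.n (.l 43) Z)) (.n (.n (.l (-79)) Z) Z)) (.n (.n (.n (.l 38) Z)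
    (.n (.l (-1)) Z)) Z)) Z)) Z)) Z)

/-- The table for cycles of length 11. -/
def tr11 : Tr :=
    (.n (.n (.n (.n (.n (.n (.n Z (.n (.n Z (.n (.l (-8)) Z)) Z)) (.n (.n (.n Z (.n (.l (-24))
    Z)) (.n (.n (.l (-33)) Z) Z)) Z)) (.n (.n (.n (.n Z (.n (.l (-3)) Z)) (.n (.n (.l (-6)) Z)
    Z)) (.n (.n (.n (.l (-33)) Z) (.n (.l 2) Z)) Z)) Z)) (.n (.n (.n (.n (.n Z (.n (.l 23) Z))
    (.n (.n (.l 22) Z) Z)) (.n (.n (.n (.l 21) Z) (.n (.l 13) Z)) Z)) (.n (.n (.n (.n (.l (-33))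
    Z) (.n (.l 7) Z)) (.n (.n (.l 1) Z) Z)) Z)) Z)) (.n (.n (.n (.n (.n (.n Z (.n (.l 12) Z))
    (.n (.n (.l 13) Z) Z)) (.n (.n (.n (.l 22) Z) Z) Z)) (.n (.n (.n (.n (.l (-6)) Z) (.n (.l
    (-16)) Z)) Z) Z)) (.n (.n (.n (.n (.n (.l (-33)) Z) Z) Z) (.n (.n (.n (.l 1) Z) (.n (.l 14)
    Z)) Z)) Z)) Z)) (.n (.n (.n (.n (.n (.n (.n Z (.n (.l (-7)) Z)) (.n (.n (.l 12) Z) Z)) (.n
    (.n (.n (.l 23) Z) (.n (.l (-22)) Z)) Z)) (.n (.n (.n (.n (.l (-3)) Z) Z) Z) Z)) (.n (.n (.n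
    (.n (.n (.l (-24)) Z) Z) (.n (.n (.l (-16)) Z) Z)) (.n (.n (.n (.l 7) Z) Z) Z)) Z)) (.n (.n
    (.n (.n (.n (.n (.l (-8)) Z) (.n (.l (-22)) Z)) Z) (.n (.n (.n (.l 13) Z) (.n (.l 15) Z))
    Z)) (.n (.n (.n (.n (.l 2) Z) Z) (.n (.n (.l 14) Z) Z)) Z)) Z)) Z)) Z)

/-- The table for cycles of length 12. -/
def tr12 : Tr :=
    (.n (.n (.n (.n (.n (.n (.n (.n (.n (.n Z (.n (.l 13162) Z)) (.n (.n (.l (-8624)) Z) Z)) (.n
    (.n (.n (.l 11950) Z) (.n (.l 6581) Z)) Z)) (.n (.n (.n (.n (.l 664) Z) (.n (.l 11230) Z))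
    (.n (.n (.l 91) Z) Z)) Z)) (.n (.n (.n (.n (.n (.l (-264)) Z) (.n (.l (-8344)) Z)) (.n (.n
    (.l 2059) Z) Z)) (.n (.n (.n (.l 7776) Z) (.n (.l (-13282)) Z)) Z)) Z)) (.n (.n (.n (.n (.n
    (.n (.l 664) Z) (.n (.l 5178) Z)) (.n (.n (.l (-11676)) Z) Z)) (.n (.n (.n (.l 11401) Z) (.n
    (.l (-8935)) Z)) Z)) (.n (.n (.n (.n (.l (-232)) Z) (.n (.l (-48)) Z)) (.n (.n (.l (-8911))
    Z) Z)) Z)) Z)) (.n (.n (.n (.n (.n (.n (.n (.l 11950) Z) (.n (.l 400) Z)) (.n (.n (.l (-43))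
    Z) Z)) (.n (.n (.n (.l (-72)) Z) (.n (.l 690) Z)) Z)) (.n (.n (.n (.n (.l 11401) Z) (.n (.l
    8758) Z)) (.n (.n (.l (-1863)) Z) Z)) Z)) (.n (.n (.n (.n (.n (.l 7776) Z) (.n (.l 48) Z))
    (.n (.n (.l (-8542)) Z) Z)) (.n (.n (.n (.l (-8553)) Z) (.n (.l 3836) Z)) Z)) Z)) Z)) (.n
    (.n (.n (.n (.n (.n (.n (.n (.l (-8624)) Z) (.n (.l (-3129)) Z)) (.n (.n (.l (-5214)) Z) Z))
    (.n (.n (.n (.l (-43)) Z) (.n (.l (-2186)) Z)) Z)) (.n (.n (.n (.n (.l (-11676)) Z) (.n (.l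
    1935) Z)) (.n (.n (.l 2483) Z) Z)) Z)) (.n (.n (.n (.n (.n (.l 2059) Z) (.n (.l (-2555)) Z))
    (.n (.n (.l 24) Z) Z)) (.n (.n (.n (.l (-8542)) Z) (.n (.l 766) Z)) Z)) Z)) (.n (.n (.n (.n
    (.n (.n (.l 91) Z) (.n (.l (-96)) Z)) (.n (.n (.l 2483) Z) Z)) (.n (.n (.n (.l (-1863)) Z)
    Z) Z)) (.n (.n (.n (.n (.l (-8911)) Z) (.n (.l (-464)) Z)) (.n (.n (.l 16232) Z) Z)) Z)) Z))
    Z)) (.n (.n (.n (.n (.n (.n (.n (.n (.n (.l 13162) Z) (.n (.l (-13282)) Z)) (.n (.n (.l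
    (-3129)) Z) Z)) (.n (.n (.n (.l 400) Z) Z) Z)) (.n (.n (.n (.n (.l 5178) Z) (.n (.l (-2018))
    Z)) (.n (.n (.l (-96)) Z) Z)) Z)) (.n (.n (.n (.n (.n (.l (-8344)) Z) (.n (.l (-17063)) Z))
    (.n (.n (.l (-2555)) Z) Z)) (.n (.n (.n (.l 48) Z) Z) Z)) Z)) (.n (.n (.n (.n (.n (.n (.l
    11230) Z) (.n (.l (-2018)) Z)) (.n (.n (.l 1935) Z) Z)) (.n (.n (.n (.l 8758) Z) (.n (.l
    3732) Z)) Z)) (.n (.n (.n (.n (.l (-48)) Z) (.n (.l 520) Z)) (.n (.n (.l (-464)) Z) Z)) Z))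
    Z)) (.n (.n (.n (.n (.n (.n (.n (.l 6581) Z) Z) (.n (.n (.l (-2186)) Z) Z)) (.n (.n (.n (.l
    690) Z) (.n (.l 8480) Z)) Z)) (.n (.n (.n (.n (.l (-8935)) Z) (.n (.l 3732) Z)) Z) Z)) (.n
    (.n (.n (.n (.n (.l (-13282)) Z) Z) (.n (.n (.l 766) Z) Z)) (.n (.n (.n (.l 3836) Z) (.n (.l
    (-24)) Z)) Z)) Z)) Z)) Z)) Z)

/-- The table for cycles of length 13. -/
def tr13 : Tr :=
    (.n (.n (.n (.n (.n (.n (.n (.n (.n Z (.n (.n Z (.n (.l (-3736)) Z)) Z)) (.n (.n (.n Z (.n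
    (.l (-5143)) Z)) (.n (.n (.l (-2157)) Z) Z)) Z)) (.n (.n (.n (.n Z (.n (.l (-1126)) Z)) (.n
    (.n (.l (-6924)) Z) Z)) (.n (.n (.n (.l (-3457)) Z) (.n (.l (-1907)) Z)) Z)) Z)) (.n (.n (.n
    (.n (.n Z (.n (.l (-496)) Z)) (.n (.n (.l 1054) Z) Z)) (.n (.n (.n (.l (-5278)) Z) (.n (.l
    1539) Z)) Z)) (.n (.n (.n (.n (.l (-2419)) Z) (.n (.l (-970)) Z)) (.n (.n (.l (-494)) Z) Z))
    Z)) Z)) (.n (.n (.n (.n (.n (.n Z (.n (.l 16) Z)) (.n (.n (.l 3890) Z) Z)) (.n (.n (.n (.l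
    (-2465)) Z) (.n (.l 1002) Z)) Z)) (.n (.n (.n (.n (.l (-2245)) Z) (.n (.l (-1036)) Z)) (.n
    (.n (.l 929) Z) Z)) Z)) (.n (.n (.n (.n (.n (.l (-2419)) Z) (.n (.l 1518) Z)) (.n (.n (.l
    456) Z) Z)) (.n (.n (.n (.l 1480) Z) (.n (.l 1907) Z)) Z)) Z)) Z)) (.n (.n (.n (.n (.n (.n
    (.n Z (.n (.l (-3646)) Z)) (.n (.n (.l 1029) Z) Z)) (.n (.n (.n (.l (-335)) Z) (.n (.l 554)
    Z)) Z)) (.n (.n (.n (.n (.l (-2465)) Z) (.n (.l 2261) Z)) (.n (.n (.l 563) Z) Z)) Z)) (.n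
    (.n (.n (.n (.n (.l (-5278)) Z) (.n (.l 2652) Z)) (.n (.n (.l 996) Z) Z)) (.n (.n (.n (.l
    583) Z) (.n (.l 1148) Z)) Z)) Z)) (.n (.n (.n (.n (.n (.n (.l (-3457)) Z) (.n (.l 1491) Z))
    (.n (.n (.l 4143) Z) Z)) (.n (.n (.n (.l 583) Z) (.n (.l 2506) Z)) Z)) (.n (.n (.n (.n (.l
    1480) Z) (.n (.l (-2533)) Z)) (.n (.n (.l (-1634)) Z) Z)) Z)) Z)) Z)) (.n (.n (.n (.n (.n
    (.n (.n (.n Z (.n (.l (-2331)) Z)) (.n (.n (.l (-2717)) Z) Z)) (.n (.n (.n (.l 1029) Z) (.n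
    (.l 1481) Z)) Z)) (.n (.n (.n (.n (.l 3890) Z) (.n (.l 3189) Z)) (.n (.n (.l 1490) Z) Z))
    Z)) (.n (.n (.n (.n (.n (.l 1054) Z) (.n (.l 3021) Z)) (.n (.n (.l 2651) Z) Z)) (.n (.n (.n
    (.l 4143) Z) (.n (.l (-1634)) Z)) Z)) Z)) (.n (.n (.n (.n (.n (.n (.l (-6924)) Z) Z) (.n (.n
    (.l 2651) Z) Z)) (.n (.n (.n (.l 996) Z) (.n (.l (-1160)) Z)) Z)) (.n (.n (.n (.n (.l 456)
    Z) (.n (.l (-67)) Z)) Z) Z)) Z)) (.n (.n (.n (.n (.n (.n (.n (.l (-2157)) Z) Z) (.n (.n (.l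
    1490) Z) Z)) (.n (.n (.n (.l 563) Z) (.n (.l 26) Z)) Z)) (.n (.n (.n (.n (.l 929) Z) (.n (.l
    (-541)) Z)) (.n (.n (.l (-2767)) Z) Z)) Z)) (.n (.n (.n (.n (.n (.l (-494)) Z) Z) Z) (.n (.n
    (.n (.l (-1634)) Z) Z) Z)) Z)) Z)) Z)) (.n (.n (.n (.n (.n (.n (.n (.n (.n Z (.n (.l
    (-3657)) Z)) (.n (.n (.l (-2331)) Z) Z)) (.n (.n (.n (.l (-3646)) Z) (.n (.l 1802) Z)) Z))
    (.n (.n (.n (.n (.l 16) Z) (.n (.l 1750) Z)) Z) Z)) (.n (.n (.n (.n (.n (.l (-496)) Z) (.n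
    (.l 4944) Z)) Z) (.n (.n (.n (.l 1491) Z) (.n (.l 953) Z)) Z)) Z)) (.n (.n (.n (.n (.n (.n
    (.l (-1126)) Z) (.n (.l 4944) Z)) (.n (.n (.l 3021) Z) Z)) (.n (.n (.n (.l 2652) Z) Z) Z))
    (.n (.n (.n (.n (.l 1518) Z) Z) Z) Z)) Z)) (.n (.n (.n (.n (.n (.n (.n (.l (-5143)) Z) (.n
    (.l 1750) Z)) (.n (.n (.l 3189) Z) Z)) (.n (.n (.n (.l 2261) Z) (.n (.l (-1149)) Z)) Z)) (.n
    (.n (.n (.n (.l (-1036)) Z) (.n (.l (-8283)) Z)) (.n (.n (.l (-541)) Z) Z)) Z)) (.n (.n (.n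
    (.n (.n (.l (-970)) Z) Z) (.n (.n (.l (-67)) Z) Z)) (.n (.n (.n (.l (-2533)) Z) (.n (.l 26)
    Z)) Z)) Z)) Z)) (.n (.n (.n (.n (.n (.n (.n (.n (.l (-3736)) Z) (.n (.l 1802) Z)) (.n (.n
    (.l 1481) Z) Z)) (.n (.n (.n (.l 554) Z) (.n (.l (-1907)) Z)) Z)) (.n (.n (.n (.n (.l 1002)
    Z) (.n (.l (-1149)) Z)) (.n (.n (.l 26) Z) Z)) Z)) (.n (.n (.n (.n (.n (.l 1539) Z) Z) (.n
    (.n (.l (-1160)) Z) Z)) (.n (.n (.n (.l 2506) Z) Z) Z)) Z)) (.n (.n (.n (.n (.n (.n (.l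
    (-1907)) Z) (.n (.l 953) Z)) (.n (.n (.l (-1634)) Z) Z)) (.n (.n (.n (.l 1148) Z) Z) Z)) (.n
    (.n (.n (.n (.l 1907) Z) (.n (.l 26) Z)) Z) Z)) Z)) Z)) Z)) Z)

theorem enum2 : enum tr2 1 2 2 0 [1, 0] = true := by
  decide +kernel

theorem enum3 : enum tr3 1 3 3 1 [1, 0] = true := by
  decide +kernel

theorem enum4 : enum tr4 3 4 4 2 [1, 0] = true := by
  decide +kernel

theorem enum5 : enum tr5 1 1 5 3 [1, 0] = true := by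
  decide +kernel

theorem enum6 : enum tr6 11 6 6 4 [1, 0] = true := by
  decide +kernel

theorem enum7 : enum tr7 3 1 7 5 [1, 0] = true := by
  decide +kernel

theorem enum8 : enum tr8 43 8 8 6 [1, 0] = true := by
  decide +kernel

theorem enum9 : enum tr9 85 9 9 7 [1, 0] = true := by
  decide +kernel

theorem enum10 : enum tr10 171 10 10 8 [1, 0] = true := by
  decide +kernel

theorem enum11 : enum tr11 31 1 11 9 [1, 0] = true := by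
  decide +kernel

theorem enum12 : enum tr12 16392 288 12 10 [1, 0] = true := by
  decide +kernel

theorem enum13 : enum tr13 105 1 13 11 [1, 0] = true := by
  decide +kernel

end Pool.Agent.H.MP_bcbcf8_co
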