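import Mathlib
import Pool.Agent.H.MP_bcbcf8_co.Words
import Pool.Agent.H.MP_bcbcf8_co.Defs

/-!
# Kempe switches on a cycle of a cubic graph
-/

set_option autoImplicit false

namespace Pool.Agent.H.MP_bcbcf8_co

open Finset

/-! ### Segments of words -/

/-- The list of `w s, …, w (s + r - 1)`. -/
def seg (w : ℕ → ℕ) : ℕ → ℕ → List ℕ
  | _, 0 => []
  | s, r + 1 => w s :: seg w (s + 1) r

theorem seg_snoc (w : ℕ → ℕ) (r s : ℕ) : seg w s (r + 1) = seg w s r ++ [w (s + r)] := by
  induction r generalizing s with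
  | zero => rfl
  | succ r ih =>
    rw [seg, ih (s + 1), seg, List.cons_append]
    congr 3
    congr 1
    omega

theorem rot_seg (w : ℕ → ℕ) (m k : ℕ) (h : w (k + m) = w k) :
    rot (seg w k m) = seg w (k + 1) m := by
  cases m with
  | zero => rfl
  | succ n =>
    rw [seg_snoc w n (k + 1), seg, rot]
    congr 2
    rw [← h]
    congr 1
    omega

theorem lst_seg (w : ℕ → ℕ) (r s a : ℕ) : lst a (seg w s (r + 1)) = w (s + r) := by
  induction r generalizing s a with
  | zero => rfl
  | succ r ih =>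
    rw [seg, lst, ih]
    congr 1
    omega

theorem pat_congr (w w' : ℕ → ℕ) (a r s : ℕ)
    (h : ∀ j, Nat.beq (w j) a = Nat.beq (w' j) a) : pat a (seg w s r) = pat a (seg w' s r) := by
  induction r generalizing s with
  | zero => rfl
  | succ r ih => rw [seg, seg, pat, pat, h, ih]

theorem pat_congr2 (w w' : ℕ → ℕ) (a a' r s : ℕ)
    (h : ∀ j, Nat.beq (w j) a = Nat.beq (w' j) a') : pat a (seg w s r) = pat a' (seg w' s r) := by
  induction r generalizing s with
  | zero => rfl
  | succ r ih => rw [seg, seg, pat, pat, h, ih]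

theorem cnt_zero (w : ℕ → ℕ) (c r s : ℕ) (h : cnt c (seg w s r) = 0) (j : ℕ) (h1 : s ≤ j)
    (h2 : j < s + r) : w j ≠ c := by
  induction r generalizing s with
  | zero => omega
  | succ r ih =>
    rw [seg, cnt] at h
    cases hx : Nat.beq (w s) c with
    | true =>
      rw [hx] at h
      simp at h
    | false =>
      rw [hx] at h
      rcases Nat.eq_or_lt_of_le h1 with h3 | h3
      · subst h3
        exact Nat.ne_of_beq_eq_false hx
      · exact ih (s + 1) h h3 (by omega)

theorem cnt_one (w : ℕ → ℕ) (c r s : ℕ) (h : cnt c (seg w s r) = 1) :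
    ∃ j, s ≤ j ∧ j < s + r ∧ w j = c ∧ ∀ i, s ≤ i → i < s + r → w i = c → i = j := by
  induction r generalizing s with
  | zero => simp [seg, cnt] at h
  | succ r ih =>
    rw [seg, cnt] at h
    cases hx : Nat.beq (w s) c with
    | true =>
      rw [hx] at h
      have h0 : cnt c (seg w (s + 1) r) = 0 := by simpa using h
      refine ⟨s, le_refl s, by omega, Nat.eq_of_beq_eq_true hx, fun i h1 h2 h3 => ?_⟩
      by_contra h4
      exact cnt_zero w c r (s + 1) h0 i (by omega) (by omega) h3
    | false =>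
      rw [hx] at h
      obtain ⟨j, h1, h2, h3, h4⟩ := ih (s + 1) h
      refine ⟨j, by omega, by omega, h3, fun i h5 h6 h7 => ?_⟩
      rcases Nat.eq_or_lt_of_le h5 with h8 | h8
      · subst h8
        exact absurd h7 (Nat.ne_of_beq_eq_false hx)
      · exact h4 i h8 (by omega) h7

theorem tot_seg (tr : Tr) (w : ℕ → ℕ) (m : ℕ) (h : ∀ k, w (k + m) = w k) (n k : ℕ) :
    tot tr n (seg w k m) = ∑ i ∈ range n, fval tr (seg w (k + i) m) := by
  induction n generalizing k with
  | zero => rfl
  | succ n ih =>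
    rw [tot, rot_seg w m k (h k), ih, Finset.sum_range_succ', add_comm]
    congr 1
    refine Finset.sum_congr rfl fun i _ => ?_
    congr 2
    omega

theorem enum_spec (tr : Tr) (D L : Int) (m : ℕ) (w : ℕ → ℕ) (hw : ∀ j, w j < 3)
    (hp : ∀ j, w j ≠ w (j + 1)) (n r : ℕ) (hr : 0 < r)
    (h : enum tr D L m n (seg w n r) = true) : enum tr D L m 0 (seg w 0 (n + r)) = true := by
  induction n generalizing r with
  | zero => rwa [Nat.zero_add]
  | succ n ih =>
    obtain ⟨q, rfl⟩ : ∃ q, r = q + 1 := ⟨r - 1, by omega⟩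
    have h1 : fst (seg w (n + 1) (q + 1)) = w (n + 1) := rfl
    have h2 : enum tr D L m n (seg w n (q + 1 + 1)) = true := by
      have h3 : seg w n (q + 1 + 1) = w n :: seg w (n + 1) (q + 1) := rfl
      rw [h3]
      rw [enum, h1] at h
      simp only [Bool.and_eq_true, Bool.or_eq_true] at h
      obtain ⟨⟨h4, h5⟩, h6⟩ := h
      have h7 := hw n
      have h8 := hp n
      have hn : ∀ x, x ≠ w (n + 1) → Nat.beq x (w (n + 1)) ≠ true := fun x hx hb =>
        hx (Nat.eq_of_beq_eq_true hb)
      rcases Nat.lt_or_ge (w n) 1 with h9 | h9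
      · have h10 : w n = 0 := by omega
        rw [h10] at h8 ⊢
        exact h4.resolve_left (hn 0 h8)
      · rcases Nat.lt_or_ge (w n) 2 with h11 | h11
        · have h10 : w n = 1 := by omega
          rw [h10] at h8 ⊢
          exact h5.resolve_left (hn 1 h8)
        · have h10 : w n = 2 := by omega
          rw [h10] at h8 ⊢
          exact h6.resolve_left (hn 2 h8)
    have h12 := ih (q + 1 + 1) (by omega) h2
    have h13 : n + 1 + (q + 1) = n + (q + 1 + 1) := by omega
    rw [h13]
    exact h12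

/-! ### The third colour -/

/-- The transposition of the two colours different from `c`. -/
def sw (c x : Fin 3) : Fin 3 := ⟨(6 - c.1 - x.1) % 3, Nat.mod_lt _ (by decide)⟩

theorem sw_self : ∀ c : Fin 3, sw c c = c := by decide

theorem sw_sw : ∀ c x : Fin 3, sw c (sw c x) = x := by decide

theorem sw_inj : ∀ c x y : Fin 3, x ≠ y → sw c x ≠ sw c y := by decide

theorem sw_eq_iff : ∀ c x : Fin 3, sw c x = c ↔ x = c := by decide

theorem sw_toggle : ∀ c x y : Fin 3, x ≠ c → y ≠ c → (sw c x = y ↔ x ≠ y) := by decide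

theorem third : ∀ c x y z : Fin 3, x ≠ c → y ≠ c → x ≠ y → z ≠ x → z ≠ y → z = c := by decide

theorem exists_perm : ∀ x y : Fin 3, x ≠ y → ∃ p : Equiv.Perm (Fin 3), p x = 0 ∧ p y = 1 := by
  decide

/-! ### Colourings -/

variable {V E : Type} (ends : E → Sym2 V)

/-- Adjacency by an edge with a colour different from `c`. -/
def Rl (φ : E → Fin 3) (c : Fin 3) (x y : V) : Prop := ∃ f, φ f ≠ c ∧ ends f = s(x, y)

/-- The component of `x`. -/
def Cm (φ : E → Fin 3) (c : Fin 3) (x : V) : Set V :=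
  {y | Relation.ReflTransGen (Rl ends φ c) x y}

variable {ends}

theorem exists_par [Fintype E] (hl : ∀ e, ¬ (ends e).IsDiag) (φ : E → Fin 3) (c : Fin 3)
    (x y : V) (h : y ∈ Cm ends φ c x) : ∃ P : E → ZMod 2, (∀ f, φ f = c → P f = 0) ∧
      ∀ w, (∑ f, open Classical in if w ∈ ends f then P f else 0) =
        (open Classical in if w = x then 1 else 0) + (open Classical in if w = y then 1 else 0) := by
  classical
  change Relation.ReflTransGen (Rl ends φ c) x y at h
  induction h with
  | refl =>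
    refine ⟨0, fun _ _ => rfl, fun w => ?_⟩
    rw [CharTwo.add_self_eq_zero]
    exact Finset.sum_eq_zero fun f _ => by split_ifs <;> rfl
  | tail _ hyz ih =>
    rename_i y z _
    obtain ⟨P, h1, h2⟩ := ih
    obtain ⟨f, hf, hfe⟩ := hyz
    have hne : y ≠ z := by
      intro h3
      apply hl f
      rw [hfe, h3]
      exact Sym2.mk_isDiag_iff.2 rfl
    refine ⟨fun g => P g + if g = f then 1 else 0, fun g hg => ?_, fun w => ?_⟩
    · have h3 : g ≠ f := by
        rintro rfl
        exact hf hg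
      simp only [h1 g hg, if_neg h3, add_zero]
    · have h3 : ∀ g, (if w ∈ ends g then (P g + if g = f then (1 : ZMod 2) else 0) else 0) =
          (if w ∈ ends g then P g else 0) + if g = f then (if w ∈ ends f then 1 else 0) else 0 := by
        intro g
        by_cases h4 : g = f
        · subst h4
          by_cases h5 : w ∈ ends g
          · simp only [if_pos h5, if_true]
          · simp only [if_neg h5, if_true, add_zero]
        · simp only [if_neg h4, add_zero]
      rw [Finset.sum_congr rfl fun g _ => h3 g, Finset.sum_add_distrib, h2 w,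
        Finset.sum_ite_eq' Finset.univ f, if_pos (Finset.mem_univ f), hfe, add_assoc]
      congr 1
      by_cases h4 : w = y
      · subst h4
        rw [if_pos rfl, if_pos (Sym2.mem_mk_left w z), if_neg hne]
        exact CharTwo.add_self_eq_zero _
      · by_cases h5 : w = z
        · subst h5
          rw [if_neg h4, if_pos (Sym2.mem_mk_right y w), if_pos rfl, zero_add]
        · rw [if_neg h4, if_neg (fun h6 => (Sym2.mem_iff.1 h6).elim h4 h5), if_neg h5, add_zero]

/-- If the two ends of an edge `e` are joined by a path of edges with the two other colours, then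
`e` is removable. -/
theorem removable_of_mem [Fintype E] (hl : ∀ e, ¬ (ends e).IsDiag) (φ : E → Fin 3)
    (hφ : IsCol ends φ) (e : E) (x y : V) (he : ends e = s(x, y))
    (h : y ∈ Cm ends φ (φ e) x) : Removable ends e := by
  classical
  obtain ⟨P, h1, h2⟩ := exists_par hl φ (φ e) x y h
  have hxy : x ≠ y := by
    intro h3
    apply hl e
    rw [he, h3]
    exact Sym2.mk_isDiag_iff.2 rfl
  have hsum : ∀ (v : V) (f g : E), v ∈ ends f → v ∈ ends g → f ≠ g → φ f ≠ φ e → φ g ≠ φ e →
      P f + P g = (if v = x then 1 else 0) + if v = y then 1 else 0 := by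
    intro v f g hf hg hfg hf1 hg1
    rw [← h2 v]
    have h3 : ∑ i ∈ ({f, g} : Finset E), (if v ∈ ends i then P i else 0) =
        ∑ i, if v ∈ ends i then P i else 0 := by
      refine Finset.sum_subset (Finset.subset_univ _) fun i _ hi => ?_
      by_cases h4 : v ∈ ends i
      · rw [if_pos h4]
        apply h1
        have h5 : i ≠ f := fun h => hi (by rw [h]; exact Finset.mem_insert_self _ _)
        have h6 : i ≠ g := fun h => hi (by
          rw [h]
          exact Finset.mem_insert_of_mem (Finset.mem_singleton_self _))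
        exact third _ _ _ _ hf1 hg1 (hφ v f g hf hg hfg) (hφ v i f h4 hf h5) (hφ v i g h4 hg h6)
      · rw [if_neg h4]
    rw [← h3, Finset.sum_pair hfg, if_pos hf, if_pos hg]
  have h01 : ∀ a : ZMod 2, a = 0 ∨ a = 1 := by decide
  refine ⟨fun f => if P f = 1 then sw (φ e) (φ f) else φ f, fun v f g hv hf hg hfg => ?_,
    fun v f g hv hf hg hfe hge => ?_⟩
  · have hne := hφ v f g hf hg hfg
    have hz : ∀ f, φ f = φ e → (if P f = 1 then sw (φ e) (φ f) else φ f) = φ e := by
      intro f hf
      rw [h1 f hf, if_neg (by decide), hf]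
    have hnz : ∀ f, φ f ≠ φ e → (if P f = 1 then sw (φ e) (φ f) else φ f) ≠ φ e := by
      intro f hf
      split_ifs
      · exact fun h => hf ((sw_eq_iff _ _).1 h)
      · exact hf
    by_cases hf1 : φ f = φ e
    · have hg1 : φ g ≠ φ e := fun h => hne (hf1.trans h.symm)
      change (if P f = 1 then sw (φ e) (φ f) else φ f) ≠ (if P g = 1 then sw (φ e) (φ g) else φ g)
      rw [hz f hf1]
      exact (hnz g hg1).symm
    · by_cases hg1 : φ g = φ e
      · change (if P f = 1 then sw (φ e) (φ f) else φ f) ≠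
          (if P g = 1 then sw (φ e) (φ g) else φ g)
        rw [hz g hg1]
        exact hnz f hf1
      · have h3 := hsum v f g hf hg hfg hf1 hg1
        have hvx : v ≠ x := fun h => hv (by rw [he, h]; exact Sym2.mem_mk_left x y)
        have hvy : v ≠ y := fun h => hv (by rw [he, h]; exact Sym2.mem_mk_right x y)
        rw [if_neg hvx, if_neg hvy, add_zero] at h3
        have h4 : P f = P g := by
          rcases h01 (P f) with h5 | h5 <;> rcases h01 (P g) with h6 | h6 <;>
            rw [h5, h6] at h3 ⊢ <;> revert h3 <;> decide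
        change (if P f = 1 then sw (φ e) (φ f) else φ f) ≠
          (if P g = 1 then sw (φ e) (φ g) else φ g)
        rw [h4]
        split_ifs
        · exact sw_inj _ _ _ hne
        · exact hne
  · by_cases hfg : f = g
    · rw [hfg]
    · have hf1 : φ f ≠ φ e := hφ v f e hf hv hfe
      have hg1 : φ g ≠ φ e := hφ v g e hg hv hge
      have hne := hφ v f g hf hg hfg
      have h3 := hsum v f g hf hg hfg hf1 hg1
      have h4 : P f + P g = 1 := by
        rw [h3]
        rw [he] at hv
        rcases Sym2.mem_iff.1 hv with h5 | h5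
        · rw [h5, if_pos rfl, if_neg hxy, add_zero]
        · rw [h5, if_neg hxy.symm, if_pos rfl, zero_add]
      change (if P f = 1 then sw (φ e) (φ f) else φ f) = (if P g = 1 then sw (φ e) (φ g) else φ g)
      rcases h01 (P f) with h5 | h5 <;> rcases h01 (P g) with h6 | h6 <;> rw [h5, h6] at h4 ⊢
      · exact absurd h4 (by decide)
      · rw [if_neg (by decide), if_pos rfl]
        exact ((sw_toggle _ _ _ hg1 hf1).2 hne.symm).symm
      · rw [if_pos rfl, if_neg (by decide)]
        exact (sw_toggle _ _ _ hf1 hg1).2 hne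
      · exact absurd h4 (by decide)

open Classical in
/-- The Kempe switch at the component of `x` of the edges with colours different from that of
`e`. -/
noncomputable def kempe (ends : E → Sym2 V) (e : E) (x : V) (φ : E → Fin 3) : E → Fin 3 :=
  fun f => if ∃ y ∈ ends f, y ∈ Cm ends φ (φ e) x then sw (φ e) (φ f) else φ f

theorem kempe_eq_iff (e : E) (x : V) (φ : E → Fin 3) (f : E) :
    kempe ends e x φ f = φ e ↔ φ f = φ e := by
  rw [kempe]
  split_ifs
  · exact sw_eq_iff _ _
  · rfl

theorem kempe_e (e : E) (x : V) (φ : E → Fin 3) : kempe ends e x φ e = φ e :=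
  (kempe_eq_iff e x φ e).2 rfl

theorem kempe_Cm (e : E) (x : V) (φ : E → Fin 3) :
    Cm ends (kempe ends e x φ) (φ e) x = Cm ends φ (φ e) x := by
  have h : Rl ends (kempe ends e x φ) (φ e) = Rl ends φ (φ e) := by
    funext a b
    rw [eq_iff_iff]
    constructor
    · rintro ⟨f, h1, h2⟩
      exact ⟨f, fun h3 => h1 ((kempe_eq_iff e x φ f).2 h3), h2⟩
    · rintro ⟨f, h1, h2⟩
      exact ⟨f, fun h3 => h1 ((kempe_eq_iff e x φ f).1 h3), h2⟩
  rw [Cm, Cm, h]

theorem kempe_kempe (e : E) (x : V) (φ : E → Fin 3) :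
    kempe ends e x (kempe ends e x φ) = φ := by
  funext f
  have h1 : kempe ends e x (kempe ends e x φ) f =
      (open Classical in if ∃ y ∈ ends f, y ∈ Cm ends φ (φ e) x then sw (φ e) (kempe ends e x φ f)
        else kempe ends e x φ f) := by
    rw [kempe, kempe_e, kempe_Cm]
  rw [h1]
  by_cases h2 : ∃ y ∈ ends f, y ∈ Cm ends φ (φ e) x
  · rw [if_pos h2, kempe, if_pos h2, sw_sw]
  · rw [if_neg h2, kempe, if_neg h2]

theorem Cm_closed (φ : E → Fin 3) (c : Fin 3) (x : V) (f : E) (hf : φ f ≠ c) (y z : V)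
    (hy : y ∈ ends f) (hz : z ∈ ends f) (h : y ∈ Cm ends φ c x) : z ∈ Cm ends φ c x := by
  by_cases hyz : y = z
  · rwa [← hyz]
  · have h1 : ends f = s(y, z) := ((Sym2.mem_and_mem_iff hyz).1 ⟨hy, hz⟩)
    exact Relation.ReflTransGen.tail h ⟨f, hf, h1⟩

theorem kempe_of_mem (e : E) (x : V) (φ : E → Fin 3) (f : E) (y : V) (hy : y ∈ ends f)
    (h : y ∈ Cm ends φ (φ e) x) : kempe ends e x φ f = sw (φ e) (φ f) := by
  rw [kempe, if_pos ⟨y, hy, h⟩]

theorem kempe_of_notMem (e : E) (x : V) (φ : E → Fin 3) (f : E) (y : V) (hy : y ∈ ends f)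
    (h : y ∉ Cm ends φ (φ e) x) : kempe ends e x φ f = φ f := by
  by_cases hf : φ f = φ e
  · rw [hf]
    exact (kempe_eq_iff e x φ f).2 hf
  · rw [kempe, if_neg]
    rintro ⟨z, hz, h1⟩
    exact h (Cm_closed φ (φ e) x f hf z y hz hy h1)

theorem kempe_isCol (e : E) (x : V) (φ : E → Fin 3) (hφ : IsCol ends φ) :
    IsCol ends (kempe ends e x φ) := by
  intro v f g hf hg hfg
  have hne := hφ v f g hf hg hfg
  by_cases h : v ∈ Cm ends φ (φ e) x
  · rw [kempe_of_mem e x φ f v hf h, kempe_of_mem e x φ g v hg h]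
    exact sw_inj _ _ _ hne
  · rw [kempe_of_notMem e x φ f v hf h, kempe_of_notMem e x φ g v hg h]
    exact hne

/-! ### The words of a cycle -/

section cycle

variable (φ : E → Fin 3) (ε : ℕ → E)

/-- The word. -/
def wd (φ : E → Fin 3) (ε : ℕ → E) (k : ℕ) : ℕ := (φ (ε k)).1

theorem wd_beq (j k : ℕ) : Nat.beq (wd φ ε j) (wd φ ε k) = decide (φ (ε j) = φ (ε k)) := by
  rw [Bool.eq_iff_iff, decide_eq_true_iff]
  constructor
  · intro h
    exact Fin.ext (Nat.eq_of_beq_eq_true h)
  · intro h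
    rw [wd, wd, h]
    exact Nat.beq_refl _

theorem fval_eq (tr : Tr) (n k : ℕ) : fval tr (seg (wd φ ε) k (n + 2)) =
    if φ (ε (k + 1)) = φ (ε (k + 1 + n)) then look tr (pat (wd φ ε k) (seg (wd φ ε) (k + 1) (n + 1)))
    else - look tr (pat (wd φ ε k) (seg (wd φ ε) (k + 1) (n + 1))) := by
  have h1 : seg (wd φ ε) k (n + 2) = wd φ ε k :: seg (wd φ ε) (k + 1) (n + 1) := rfl
  have h2 : fst (seg (wd φ ε) (k + 1) (n + 1)) = wd φ ε (k + 1) := rfl
  rw [h1, fval, h2, lst_seg, wd_beq]
  by_cases h : φ (ε (k + 1)) = φ (ε (k + 1 + n))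
  · rw [if_pos h, decide_eq_true h]
  · rw [if_neg h, decide_eq_false h]

variable {φ ε}

theorem fval_kempe (tr : Tr) (n k : ℕ) (x : V)
    (h1 : kempe ends (ε k) x φ (ε (k + 1)) = sw (φ (ε k)) (φ (ε (k + 1))))
    (h2 : kempe ends (ε k) x φ (ε (k + 1 + n)) = φ (ε (k + 1 + n)))
    (h3 : φ (ε (k + 1)) ≠ φ (ε k)) (h4 : φ (ε (k + 1 + n)) ≠ φ (ε k)) :
    fval tr (seg (wd φ ε) k (n + 2)) +
      fval tr (seg (wd (kempe ends (ε k) x φ) ε) k (n + 2)) = 0 := by
  rw [fval_eq, fval_eq, h1, h2]
  have h5 : pat (wd (kempe ends (ε k) x φ) ε k) (seg (wd (kempe ends (ε k) x φ) ε) (k + 1) (n + 1)) =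
      pat (wd φ ε k) (seg (wd φ ε) (k + 1) (n + 1)) := by
    refine pat_congr2 _ _ _ _ _ _ fun j => ?_
    rw [wd_beq, wd_beq, kempe_e]
    congr 1
    rw [eq_iff_iff]
    exact kempe_eq_iff _ _ _ _
  rw [h5]
  by_cases h6 : φ (ε (k + 1)) = φ (ε (k + 1 + n))
  · rw [if_pos h6, if_neg (fun h7 => (sw_toggle _ _ _ h3 h4).1 h7 h6)]
    exact add_neg_cancel _
  · rw [if_neg h6, if_pos ((sw_toggle _ _ _ h3 h4).2 h6)]
    exact neg_add_cancel _

theorem fval_perm (tr : Tr) (n k : ℕ) (p : Equiv.Perm (Fin 3)) :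
    fval tr (seg (wd (fun f => p (φ f)) ε) k (n + 2)) = fval tr (seg (wd φ ε) k (n + 2)) := by
  rw [fval_eq, fval_eq]
  have h5 : pat (wd (fun f => p (φ f)) ε k) (seg (wd (fun f => p (φ f)) ε) (k + 1) (n + 1)) =
      pat (wd φ ε k) (seg (wd φ ε) (k + 1) (n + 1)) := by
    refine pat_congr2 _ _ _ _ _ _ fun j => ?_
    rw [wd_beq, wd_beq]
    congr 1
    rw [eq_iff_iff]
    exact p.injective.eq_iff
  rw [h5]
  by_cases h6 : φ (ε (k + 1)) = φ (ε (k + 1 + n))
  · rw [if_pos h6, if_pos (congrArg p h6)]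
  · rw [if_neg h6, if_neg (fun h7 => h6 (p.injective h7))]

end cycle

/-- The main argument. -/
theorem main (n : ℕ) (tr : Tr) (D L : Int) (hL : 0 < L)
    (hen : enum tr D L (n + 2) n [1, 0] = true) [Fintype E]
    (hl : ∀ e, ¬ (ends e).IsDiag) (φ₀ : E → Fin 3) (hφ₀ : IsCol ends φ₀)
    (z : ℕ → V) (ε : ℕ → E) (hz : ∀ k, z (k + (n + 2)) = z k) (hε : ∀ k, ε (k + (n + 2)) = ε k)
    (hin : ∀ k j, j < n + 1 → ε k ≠ ε (k + 1 + j))
    (hends : ∀ k, ends (ε k) = s(z k, z (k + 1))) : ∃ k, Removable ends (ε k) := by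
  classical
  by_contra hno
  push Not at hno
  have hsep : ∀ φ, IsCol ends φ → ∀ k, z k ∉ Cm ends φ (φ (ε k)) (z (k + 1)) := by
    intro φ hφ k h
    refine hno k (removable_of_mem hl φ hφ (ε k) (z (k + 1)) (z k) ?_ h)
    rw [hends k, Sym2.eq_swap]
  have hr : ∀ k, z (k + 1) ∈ ends (ε (k + 1)) := fun k => by
    rw [hends]
    exact Sym2.mem_mk_left _ _
  have hr0 : ∀ k, z (k + 1) ∈ ends (ε k) := fun k => by
    rw [hends]
    exact Sym2.mem_mk_right _ _
  have hl0 : ∀ k, z k ∈ ends (ε k) := fun k => by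
    rw [hends]
    exact Sym2.mem_mk_left _ _
  have hl1 : ∀ k, z k ∈ ends (ε (k + 1 + n)) := fun k => by
    rw [hends, ← hz k]
    have h : k + 1 + n + 1 = k + (n + 2) := by omega
    rw [h]
    exact Sym2.mem_mk_right _ _
  have hne1 : ∀ φ, IsCol ends φ → ∀ k, φ (ε (k + 1)) ≠ φ (ε k) := fun φ hφ k =>
    hφ (z (k + 1)) _ _ (hr k) (hr0 k) (fun h => hin k 0 (by omega) h.symm)
  have hne2 : ∀ φ, IsCol ends φ → ∀ k, φ (ε (k + 1 + n)) ≠ φ (ε k) := fun φ hφ k =>
    hφ (z k) _ _ (hl1 k) (hl0 k) (fun h => hin k n (by omega) h.symm)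
  -- the sum over all colourings vanishes
  have hsum : ∀ k, ∑ φ ∈ Finset.univ.filter (fun φ : E → Fin 3 => IsCol ends φ),
      fval tr (seg (wd φ ε) k (n + 2)) = 0 := by
    intro k
    have hk : ∀ φ ∈ Finset.univ.filter (fun φ : E → Fin 3 => IsCol ends φ),
        fval tr (seg (wd φ ε) k (n + 2)) +
          fval tr (seg (wd (kempe ends (ε k) (z (k + 1)) φ) ε) k (n + 2)) = 0 := by
      intro φ hφ
      have hφ' := (Finset.mem_filter.1 hφ).2
      exact fval_kempe tr n k (z (k + 1))
        (kempe_of_mem _ _ _ _ _ (hr k) Relation.ReflTransGen.refl)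
        (kempe_of_notMem _ _ _ _ _ (hl1 k) (hsep φ hφ' k)) (hne1 φ hφ' k) (hne2 φ hφ' k)
    refine Finset.sum_involution (fun φ _ => kempe ends (ε k) (z (k + 1)) φ) hk ?_ ?_ ?_
    · intro φ hφ h1 h2
      have h3 := hk φ hφ
      rw [h2] at h3
      omega
    · intro φ hφ
      exact Finset.mem_filter.2 ⟨Finset.mem_univ _,
        kempe_isCol _ _ _ (Finset.mem_filter.1 hφ).2⟩
    · intro φ hφ
      exact kempe_kempe _ _ _
  -- no colour occurs exactly once
  have hmany : ∀ φ, IsCol ends φ → ∀ k, ∃ j, j < n + 1 ∧ φ (ε (k + 1 + j)) = φ (ε k) := by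
    intro φ hφ k
    by_contra h
    push Not at h
    apply hsep φ hφ k
    have h1 : ∀ j, j ≤ n + 1 → z (k + 1 + j) ∈ Cm ends φ (φ (ε k)) (z (k + 1)) := by
      intro j
      induction j with
      | zero => exact fun _ => Relation.ReflTransGen.refl
      | succ j ih =>
        intro hj
        refine Relation.ReflTransGen.tail (ih (by omega)) ⟨ε (k + 1 + j), h j (by omega), ?_⟩
        rw [hends]
        rfl
    have h2 := h1 (n + 1) le_rfl
    have h3 : k + 1 + (n + 1) = k + (n + 2) := by omega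
    rw [h3, hz] at h2
    exact h2
  -- the sum over the positions
  have hpos : ∀ φ, IsCol ends φ → ∑ i ∈ range (n + 2), fval tr (seg (wd φ ε) (0 + i) (n + 2)) = -L := by
    intro φ hφ
    obtain ⟨p, hp0, hp1⟩ := exists_perm (φ (ε (n + 1))) (φ (ε n)) (hne1 φ hφ n)
    have hψ : IsCol ends (fun f => p (φ f)) := fun v f g hf hg hfg h =>
      hφ v f g hf hg hfg (p.injective h)
    have h1 : ∀ i, fval tr (seg (wd φ ε) (0 + i) (n + 2)) =
        fval tr (seg (wd (fun f => p (φ f)) ε) (0 + i) (n + 2)) := fun i =>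
      (fval_perm tr n (0 + i) p).symm
    rw [Finset.sum_congr rfl fun i _ => h1 i]
    have hper : ∀ k, wd (fun f => p (φ f)) ε (k + (n + 2)) = wd (fun f => p (φ f)) ε k := by
      intro k
      rw [wd, hε, wd]
    rw [← tot_seg tr _ (n + 2) hper (n + 2) 0]
    have hw : ∀ j, wd (fun f => p (φ f)) ε j < 3 := fun j => (p (φ (ε j))).2
    have hpr : ∀ j, wd (fun f => p (φ f)) ε j ≠ wd (fun f => p (φ f)) ε (j + 1) := fun j h =>
      hne1 _ hψ j (Fin.ext h.symm)
    have hs : seg (wd (fun f => p (φ f)) ε) n 2 = [1, 0] := by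
      have e1 : wd (fun f => p (φ f)) ε n = 1 := by
        change (p (φ (ε n))).1 = 1
        rw [hp1]
        rfl
      have e2 : wd (fun f => p (φ f)) ε (n + 1) = 0 := by
        change (p (φ (ε (n + 1)))).1 = 0
        rw [hp0]
        rfl
      change [wd (fun f => p (φ f)) ε n, wd (fun f => p (φ f)) ε (n + 1)] = [1, 0]
      rw [e1, e2]
    rw [← hs] at hen
    have h2 := enum_spec tr D L (n + 2) _ hw hpr n 2 (by omega) hen
    rw [enum] at h2
    have h3 : Nat.beq (fst (seg (wd (fun f => p (φ f)) ε) 0 (n + 2)))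
        (lst 9 (seg (wd (fun f => p (φ f)) ε) 0 (n + 2))) = false := by
      rw [lst_seg]
      have h4 : fst (seg (wd (fun f => p (φ f)) ε) 0 (n + 2)) = wd (fun f => p (φ f)) ε 0 := rfl
      rw [h4, wd_beq]
      apply decide_eq_false
      intro h5
      have h6 := hne1 _ hψ (n + 1)
      apply h6
      have h7 : ε (n + 1 + 1) = ε 0 := by
        have := hε 0
        rwa [Nat.zero_add] at this
      rw [h7]
      have h8 : 0 + (n + 1) = n + 1 := by omega
      rw [h8] at h5
      exact h5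
    rw [h3, Bool.false_or, ok, decide_eq_true_iff] at h2
    have h5 : ∀ c, one c (seg (wd (fun f => p (φ f)) ε) 0 (n + 2)) = 0 := by
      intro c
      rw [one]
      cases hx : Nat.beq (cnt c (seg (wd (fun f => p (φ f)) ε) 0 (n + 2))) 1 with
      | false => rfl
      | true =>
        exfalso
        obtain ⟨j, h6, h7, h8, h9⟩ := cnt_one _ _ _ _ (Nat.eq_of_beq_eq_true hx)
        obtain ⟨i, hi, h10⟩ := hmany _ hψ j
        -- reduce the index modulo the period
        by_cases h11 : j + 1 + i < n + 2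
        · have h12 := h9 (j + 1 + i) (by omega) (by omega) (by
            rw [← h8]
            exact congrArg Fin.val h10)
          omega
        · have h12 : ε (j + 1 + i) = ε (j + 1 + i - (n + 2)) := by
            rw [← hε (j + 1 + i - (n + 2))]
            congr 1
            omega
          have h13 := h9 (j + 1 + i - (n + 2)) (by omega) (by omega) (by
            rw [← h8]
            rw [h12] at h10
            exact congrArg Fin.val h10)
          omega
    rw [h5, h5, h5] at h2
    omega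
  have h1 : ∑ φ ∈ Finset.univ.filter (fun φ : E → Fin 3 => IsCol ends φ),
      ∑ i ∈ range (n + 2), fval tr (seg (wd φ ε) (0 + i) (n + 2)) = 0 := by
    rw [Finset.sum_comm]
    exact Finset.sum_eq_zero fun i _ => hsum _
  have h2 : ∑ φ ∈ Finset.univ.filter (fun φ : E → Fin 3 => IsCol ends φ),
      ∑ i ∈ range (n + 2), fval tr (seg (wd φ ε) (0 + i) (n + 2)) =
      ∑ φ ∈ Finset.univ.filter (fun φ : E → Fin 3 => IsCol ends φ), (-L) :=
    Finset.sum_congr rfl fun φ hφ => hpos φ (Finset.mem_filter.1 hφ).2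
  rw [h2, Finset.sum_const, nsmul_eq_mul, mul_eq_zero] at h1
  have hmem : φ₀ ∈ Finset.univ.filter (fun φ : E → Fin 3 => IsCol ends φ) :=
    Finset.mem_filter.2 ⟨Finset.mem_univ _, hφ₀⟩
  have hc := Finset.card_pos.2 ⟨φ₀, hmem⟩
  rcases h1 with h1 | h1
  · have h3 : (Finset.univ.filter (fun φ : E → Fin 3 => IsCol ends φ)).card = 0 := by
      exact_mod_cast h1
    omega
  · omega

end Pool.Agent.H.MP_bcbcf8_co
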