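import Mathlib
import Pool.Agent.H.MP_bcbcf8_co.Graph

/-!
# Closed trails of length at most 13
-/

set_option autoImplicit false

namespace Pool.Agent.H.MP_bcbcf8_co

variable {V E : Type} {ends : E → Sym2 V}

theorem main_zmod (n : ℕ) (tr : Tr) (D L : Int) (hL : 0 < L)
    (hen : enum tr D L (n + 2) n [1, 0] = true) [Finite E]
    (hl : ∀ e, ¬ (ends e).IsDiag) (φ₀ : E → Fin 3) (hφ₀ : IsCol ends φ₀)
    (z : ZMod (n + 2) → V) (ε : ZMod (n + 2) → E) (hε : Function.Injective ε)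
    (hends : ∀ i, ends (ε i) = s(z i, z (i + 1))) : ∃ i, Removable ends (ε i) := by
  have := Fintype.ofFinite E
  have hp : ∀ k : ℕ, ((k + (n + 2) : ℕ) : ZMod (n + 2)) = (k : ZMod (n + 2)) := by
    intro k
    rw [Nat.cast_add, ZMod.natCast_self, add_zero]
  obtain ⟨k, hk⟩ := main (ends := ends) n tr D L hL hen hl φ₀ hφ₀ (fun k => z (k : ZMod (n + 2)))
    (fun k => ε (k : ZMod (n + 2))) (fun k => congrArg z (hp k)) (fun k => congrArg ε (hp k))
    (fun k j hj h => by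
      have h1 := hε h
      rw [ZMod.natCast_eq_natCast_iff'] at h1
      have h2 : (n + 2) ∣ (k + 1 + j) - k := (Nat.modEq_iff_dvd' (by omega)).1 h1
      have h3 : k + 1 + j - k = 1 + j := by omega
      rw [h3] at h2
      have h4 := Nat.le_of_dvd (by omega) h2
      omega)
    (fun k => by
      change ends (ε (k : ZMod (n + 2))) = s(z (k : ZMod (n + 2)), z ((k + 1 : ℕ) : ZMod (n + 2)))
      rw [hends, Nat.cast_add, Nat.cast_one])
  exact ⟨_, hk⟩

theorem final [Finite E] (hl : ∀ e, ¬ (ends e).IsDiag) (φ₀ : E → Fin 3) (hφ₀ : IsCol ends φ₀)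
    (m : ℕ) (h2 : 2 ≤ m) (h13 : m ≤ 13)
    (z : ZMod m → V) (ε : ZMod m → E) (hε : Function.Injective ε)
    (hends : ∀ i, ends (ε i) = s(z i, z (i + 1))) : ∃ i, Removable ends (ε i) := by
  interval_cases m
  · exact main_zmod 0 tr2 1 2 (by norm_num) enum2 hl φ₀ hφ₀ z ε hε hends
  · exact main_zmod 1 tr3 1 3 (by norm_num) enum3 hl φ₀ hφ₀ z ε hε hends
  · exact main_zmod 2 tr4 3 4 (by norm_num) enum4 hl φ₀ hφ₀ z ε hε hends
  · exact main_zmod 3 tr5 1 1 (by norm_num) enum5 hl φ₀ hφ₀ z ε hε hends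
  · exact main_zmod 4 tr6 11 6 (by norm_num) enum6 hl φ₀ hφ₀ z ε hε hends
  · exact main_zmod 5 tr7 3 1 (by norm_num) enum7 hl φ₀ hφ₀ z ε hε hends
  · exact main_zmod 6 tr8 43 8 (by norm_num) enum8 hl φ₀ hφ₀ z ε hε hends
  · exact main_zmod 7 tr9 85 9 (by norm_num) enum9 hl φ₀ hφ₀ z ε hε hends
  · exact main_zmod 8 tr10 171 10 (by norm_num) enum10 hl φ₀ hφ₀ z ε hε hends
  · exact main_zmod 9 tr11 31 1 (by norm_num) enum11 hl φ₀ hφ₀ z ε hε hends
  · exact main_zmod 10 tr12 16392 288 (by norm_num) enum12 hl φ₀ hφ₀ z ε hε hends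
  · exact main_zmod 11 tr13 105 1 (by norm_num) enum13 hl φ₀ hφ₀ z ε hε hends

end Pool.Agent.H.MP_bcbcf8_co
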