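import Mathlib
import Pool.Agent.H.MP_bcbcf8_co.Defs

/-!
# Removable edges of cubic Cayley graphs
-/

set_option autoImplicit false

namespace Pool.Agent.H.MP_bcbcf8_co

/-- The edges of the Cayley graph of `Γ` with connection set `S`: the unordered pairs `{g, g t}` with
`t ∈ S`. -/
def CayEdge {Γ : Type} [Group Γ] (S : Set Γ) : Type :=
  {p : Sym2 Γ // ∃ g, ∃ t ∈ S, p = s(g, g * t)}

/-- The two ends of an edge of the Cayley graph. -/
def cayEnds {Γ : Type} [Group Γ] (S : Set Γ) (e : CayEdge S) : Sym2 Γ := e.1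

/-- The edge `{g, g t}`. -/
def cayEdge {Γ : Type} [Group Γ] (S : Set Γ) (g t : Γ) (ht : t ∈ S) : CayEdge S :=
  ⟨s(g, g * t), g, t, ht, rfl⟩

section frame

variable {Γ : Type} [Group Γ] {S : Set Γ}

theorem cay_mem (hinv : ∀ t ∈ S, t⁻¹ ∈ S) (f : CayEdge S) (v : Γ) (hv : v ∈ cayEnds S f) :
    ∃ t ∈ S, f.1 = s(v, v * t) := by
  obtain ⟨p, g, t, ht, hp⟩ := f
  have hv' : v ∈ p := hv
  rw [hp, Sym2.mem_iff] at hv'
  rcases hv' with h | h
  · exact ⟨t, ht, by rw [h]; exact hp⟩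
  · refine ⟨t⁻¹, hinv t ht, ?_⟩
    show p = _
    rw [hp, h, mul_inv_cancel_right, Sym2.eq_swap]

theorem cay_frame (F : Γ → Γ → Fin 3)
    (hF : ∀ v, ∀ t ∈ S, F v t = F (v * t) t⁻¹) :
    ∃ c : CayEdge S → Fin 3, ∀ (f : CayEdge S) (v t : Γ), t ∈ S → f.1 = s(v, v * t) → c f = F v t := by
  have hex : ∀ f : CayEdge S, ∃ g t, t ∈ S ∧ f.1 = s(g, g * t) := by
    intro f
    obtain ⟨g, t, ht, h⟩ := f.2
    exact ⟨g, t, ht, h⟩
  choose w u hu hfu using hex
  refine ⟨fun f => F (w f) (u f), fun f v t ht hf => ?_⟩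
  have h := (hfu f).symm.trans hf
  rw [Sym2.eq_iff] at h
  show F (w f) (u f) = F v t
  rcases h with ⟨h1, h2⟩ | ⟨h1, h2⟩
  · rw [h1] at h2
    rw [h1, mul_left_cancel h2]
  · rw [hF (w f) (u f) (hu f), h2]
    congr 1
    rw [h1, mul_assoc] at h2
    have h3 : t * u f = 1 := by
      have h4 : v * (t * u f) = v * 1 := by rw [h2, mul_one]
      exact mul_left_cancel h4
    exact (eq_inv_of_mul_eq_one_left h3).symm

theorem cay_isCol (hinv : ∀ t ∈ S, t⁻¹ ∈ S) (F : Γ → Γ → Fin 3)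
    (hF : ∀ v, ∀ t ∈ S, F v t = F (v * t) t⁻¹)
    (h : ∀ v, ∀ t ∈ S, ∀ t' ∈ S, t ≠ t' → F v t ≠ F v t') :
    ∃ c : CayEdge S → Fin 3, IsCol (cayEnds S) c := by
  obtain ⟨c, hc⟩ := cay_frame F hF
  refine ⟨c, fun v f g hf hg hfg => ?_⟩
  obtain ⟨t, ht, hft⟩ := cay_mem hinv f v hf
  obtain ⟨t', ht', hgt⟩ := cay_mem hinv g v hg
  rw [hc f v t ht hft, hc g v t' ht' hgt]
  refine h v t ht t' ht' fun htt => hfg ?_
  rw [← htt] at hgt
  exact Subtype.ext (hft.trans hgt.symm)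

theorem cay_removable (hinv : ∀ t ∈ S, t⁻¹ ∈ S) (F : Γ → Γ → Fin 3)
    (hF : ∀ v, ∀ t ∈ S, F v t = F (v * t) t⁻¹) (g t0 : Γ) (ht0 : t0 ∈ S)
    (h : ∀ v, v ≠ g → v ≠ g * t0 → ∀ t ∈ S, ∀ t' ∈ S, t ≠ t' → F v t ≠ F v t')
    (h1 : ∀ t ∈ S, ∀ t' ∈ S, t ≠ t0 → t' ≠ t0 → F g t = F g t')
    (h2 : ∀ t ∈ S, ∀ t' ∈ S, t ≠ t0⁻¹ → t' ≠ t0⁻¹ → F (g * t0) t = F (g * t0) t') :
    Removable (cayEnds S) (cayEdge S g t0 ht0) := by
  obtain ⟨c, hc⟩ := cay_frame F hF
  have hne : ∀ (f : CayEdge S), f ≠ cayEdge S g t0 ht0 → f.1 ≠ s(g, g * t0) := by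
    intro f hf h3
    exact hf (Subtype.ext h3)
  refine ⟨c, fun v f f' hv hf hf' hff => ?_, fun v f f' hv hf hf' hfe hfe' => ?_⟩
  · obtain ⟨t, ht, hft⟩ := cay_mem hinv f v hf
    obtain ⟨t', ht', hgt⟩ := cay_mem hinv f' v hf'
    rw [hc f v t ht hft, hc f' v t' ht' hgt]
    have hv' : ¬ v ∈ (s(g, g * t0) : Sym2 Γ) := hv
    rw [Sym2.mem_iff, not_or] at hv'
    refine h v hv'.1 hv'.2 t ht t' ht' fun htt => hff ?_
    rw [← htt] at hgt
    exact Subtype.ext (hft.trans hgt.symm)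
  · obtain ⟨t, ht, hft⟩ := cay_mem hinv f v hf
    obtain ⟨t', ht', hgt⟩ := cay_mem hinv f' v hf'
    rw [hc f v t ht hft, hc f' v t' ht' hgt]
    have hv' : v ∈ (s(g, g * t0) : Sym2 Γ) := hv
    have hfe1 := hne f hfe
    have hfe2 := hne f' hfe'
    rw [Sym2.mem_iff] at hv'
    rcases hv' with h3 | h3
    · subst h3
      refine h1 t ht t' ht' ?_ ?_
      · intro h4
        rw [h4] at hft
        exact hfe1 hft
      · intro h4
        rw [h4] at hgt
        exact hfe2 hgt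
    · subst h3
      refine h2 t ht t' ht' ?_ ?_
      · intro h4
        rw [h4, mul_inv_cancel_right, Sym2.eq_swap] at hft
        exact hfe1 hft
      · intro h4
        rw [h4, mul_inv_cancel_right, Sym2.eq_swap] at hgt
        exact hfe2 hgt

end frame

section group

variable {Γ : Type} [Group Γ]

variable {a b c : Γ}

theorem cay_semi (ha : a * a = 1) (hb : b * b = 1) (k : ℤ) :
    a * (a * b) ^ k = (a * b) ^ (-k) * a ∧ b * (a * b) ^ k = (a * b) ^ (-k) * b := by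
  have hab : (a * b)⁻¹ = b * a := by
    rw [mul_inv_rev, inv_eq_of_mul_eq_one_left ha, inv_eq_of_mul_eq_one_left hb]
  have h1 : SemiconjBy a (a * b) (a * b)⁻¹ := by
    show a * (a * b) = (a * b)⁻¹ * a
    rw [hab, ← mul_assoc, ha, one_mul, mul_assoc, ha, mul_one]
  have h2 : SemiconjBy b (a * b) (a * b)⁻¹ := by
    show b * (a * b) = (a * b)⁻¹ * b
    rw [hab, mul_assoc]
  have h3 := (h1.zpow_right k).eq
  have h4 := (h2.zpow_right k).eq
  rw [inv_zpow, ← zpow_neg] at h3 h4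
  exact ⟨h3, h4⟩

theorem cay_dih (ha : a * a = 1) (hb : b * b = 1) {y : Γ} (hy : y ∈ Subgroup.closure {a, b}) :
    ∃ k : ℤ, y = (a * b) ^ k ∨ y = (a * b) ^ k * a := by
  induction hy using Subgroup.closure_induction with
  | mem s hs =>
    rcases hs with rfl | hs
    · exact ⟨0, Or.inr (by simp)⟩
    · rw [Set.mem_singleton_iff] at hs
      subst hs
      refine ⟨-1, Or.inr ?_⟩
      rw [zpow_neg_one, mul_inv_rev, inv_eq_of_mul_eq_one_left ha, inv_eq_of_mul_eq_one_left hb,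
        mul_assoc, ha, mul_one]
  | one => exact ⟨0, Or.inl (by simp)⟩
  | mul g1 g2 _ _ i1 i2 =>
    obtain ⟨k, hk⟩ := i1
    obtain ⟨l, hl⟩ := i2
    rcases hk with hk | hk <;> rcases hl with hl | hl
    · exact ⟨k + l, Or.inl (by rw [hk, hl, zpow_add])⟩
    · exact ⟨k + l, Or.inr (by rw [hk, hl, zpow_add, mul_assoc])⟩
    · refine ⟨k + -l, Or.inr ?_⟩
      rw [hk, hl, mul_assoc, (cay_semi ha hb l).1, zpow_add, mul_assoc]
    · refine ⟨k + -l, Or.inl ?_⟩
      rw [hk, hl, mul_assoc, ← mul_assoc a, (cay_semi ha hb l).1, zpow_add, mul_assoc _ a a, ha, mul_one]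
  | inv g1 _ i1 =>
    obtain ⟨k, hk⟩ := i1
    rcases hk with hk | hk
    · exact ⟨-k, Or.inl (by rw [hk, zpow_neg])⟩
    · refine ⟨k, Or.inr ?_⟩
      rw [hk, mul_inv_rev, inv_eq_of_mul_eq_one_left ha, ← zpow_neg, (cay_semi ha hb (-k)).1, neg_neg]

/-- a cyclic group has at most one involution -/
theorem cay_invol_unique (r : Γ) {z w : Γ} (hz : z ∈ Subgroup.zpowers r) (hw : w ∈ Subgroup.zpowers r)
    (hz2 : z * z = 1) (hw2 : w * w = 1) (hz1 : z ≠ 1) (hw1 : w ≠ 1) [Finite Γ] : z = w := by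
  have h1 : IsCyclic (Subgroup.zpowers r) := inferInstance
  classical
  have : Fintype (Subgroup.zpowers r) := Fintype.ofFinite _
  have h2 := IsCyclic.card_pow_eq_one_le (α := Subgroup.zpowers r) (n := 2) (by norm_num)
  by_contra hne
  have h3 : ({1, ⟨z, hz⟩, ⟨w, hw⟩} : Finset (Subgroup.zpowers r)) ⊆
      Finset.univ.filter fun a : Subgroup.zpowers r => a ^ 2 = 1 := by
    intro x hx
    simp only [Finset.mem_insert, Finset.mem_singleton] at hx
    simp only [Finset.mem_filter, Finset.mem_univ, true_and]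
    rcases hx with rfl | rfl | rfl
    · simp
    · exact Subtype.ext (by simpa [sq] using hz2)
    · exact Subtype.ext (by simpa [sq] using hw2)
  have h4 := Finset.card_le_card h3
  have h5 : ({1, ⟨z, hz⟩, ⟨w, hw⟩} : Finset (Subgroup.zpowers r)).card = 3 := by
    rw [Finset.card_eq_three]
    refine ⟨1, ⟨z, hz⟩, ⟨w, hw⟩, ?_, ?_, ?_, rfl⟩
    · intro h
      exact hz1 (congrArg Subtype.val h).symm
    · intro h
      exact hw1 (congrArg Subtype.val h).symm
    · intro h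
      exact hne (congrArg Subtype.val h)
  omega

/-- the second case -/
theorem cay_caseB
    (hΓ : ∀ y : Γ, a * y * a⁻¹ = y⁻¹ → b * y * b⁻¹ = y⁻¹ → c * y * c⁻¹ = y⁻¹ → y = 1) (ha : a * a = 1) (hb : b * b = 1) (hc : c * c = 1)
    {y : Γ} (h1 : y ∈ Subgroup.closure {a, b}) (h2 : y ∈ Subgroup.closure {a, c}) (hy1 : y ≠ 1)
    (hya : y ≠ a) :
    ∃ z ∈ Subgroup.zpowers (a * b), z * a ∈ Subgroup.zpowers (a * c) ∧ z * z = 1 ∧
      z * a * (z * a) = 1 ∧ z ≠ 1 ∧ z * a ≠ 1 := by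
  have hinv : a⁻¹ = a := inv_eq_of_mul_eq_one_left ha
  have hbinv : b⁻¹ = b := inv_eq_of_mul_eq_one_left hb
  have hcinv : c⁻¹ = c := inv_eq_of_mul_eq_one_left hc
  -- a common rotation is trivial
  have rot : ∀ k l : ℤ, (a * b) ^ k = (a * c) ^ l → (a * b) ^ k = 1 := by
    intro k l h
    apply hΓ
    · rw [(cay_semi ha hb k).1, mul_assoc, mul_inv_cancel, mul_one, zpow_neg]
    · rw [(cay_semi ha hb k).2, mul_assoc, mul_inv_cancel, mul_one, zpow_neg]
    · rw [h, (cay_semi ha hc l).2, mul_assoc, mul_inv_cancel, mul_one, zpow_neg]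
  -- the mixed case
  have mix : ∀ (k l : ℤ), (a * b) ^ k = (a * c) ^ l * a → (a * b) ^ k ≠ 1 → (a * b) ^ k ≠ a →
      ∃ z ∈ Subgroup.zpowers (a * b), z * a ∈ Subgroup.zpowers (a * c) ∧ z * z = 1 ∧
      z * a * (z * a) = 1 ∧ z ≠ 1 ∧ z * a ≠ 1 := by
    intro k l h hn1 hna
    have e1 : (a * b) ^ k * a = (a * c) ^ l := by rw [h, mul_assoc, ha, mul_one]
    have e2 : (a * b) ^ k * (a * b) ^ k = 1 := by
      rw [h, mul_assoc, ← mul_assoc a, (cay_semi ha hc l).1, mul_assoc _ a a, ha, mul_one, zpow_neg,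
        mul_inv_cancel]
    refine ⟨(a * b) ^ k, ⟨k, rfl⟩, ⟨l, e1.symm⟩, e2, ?_, hn1, fun h3 => hna ?_⟩
    · rw [mul_assoc, ← mul_assoc a, (cay_semi ha hb k).1, mul_assoc _ a a, ha, mul_one, zpow_neg,
        mul_inv_cancel]
    · have := eq_inv_of_mul_eq_one_left h3
      rw [this, hinv]
  obtain ⟨k, hk⟩ := cay_dih ha hb h1
  obtain ⟨l, hl⟩ := cay_dih ha hc h2
  rcases hk with hk | hk <;> rcases hl with hl | hl
  · exact absurd (hk.trans (rot k l (hk.symm.trans hl))) hy1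
  · exact mix k l (hk.symm.trans hl) (by rwa [← hk]) (by rwa [← hk])
  · have e : (a * b) ^ k = (a * c) ^ l * a := by
      rw [← hl, hk, mul_assoc, ha, mul_one]
    refine mix k l e (fun h => hya ?_) (fun h => hy1 ?_)
    · rw [hk, h, one_mul]
    · rw [hk, h, ha]
  · have e : (a * b) ^ k = (a * c) ^ l := by
      have := hk.symm.trans hl
      exact mul_right_cancel this
    have := rot k l e
    exact absurd (by rw [hk, this, one_mul]) hya

theorem cay_group [Finite Γ]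
    (hΓ : ∀ y : Γ, a * y * a⁻¹ = y⁻¹ → b * y * b⁻¹ = y⁻¹ → c * y * c⁻¹ = y⁻¹ → y = 1) (ha : a * a = 1) (hb : b * b = 1) (hc : c * c = 1)
    (ha1 : a ≠ 1) :
    (∀ y ∈ Subgroup.closure {a, b}, y ∈ Subgroup.closure {a, c} → y = 1 ∨ y = a) ∨
    (∀ y ∈ Subgroup.closure {b, a}, y ∈ Subgroup.closure {b, c} → y = 1 ∨ y = b) ∨
    (∀ y ∈ Subgroup.closure {c, a}, y ∈ Subgroup.closure {c, b} → y = 1 ∨ y = c) := by
  by_contra hcon
  push Not at hcon
  obtain ⟨⟨y1, p1, q1, r1, s1⟩, ⟨y2, p2, q2, r2, s2⟩, ⟨y3, p3, q3, r3, s3⟩⟩ := hcon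
  obtain ⟨z1, u1, v1, z1s, w1s, z1n, w1n⟩ := cay_caseB hΓ ha hb hc p1 q1 r1 s1
  obtain ⟨z2, u2, v2, z2s, w2s, z2n, w2n⟩ := cay_caseB (fun y h1 h2 h3 => hΓ y h2 h1 h3) hb ha hc p2 q2 r2 s2
  obtain ⟨z3, u3, v3, z3s, w3s, z3n, w3n⟩ := cay_caseB (fun y h1 h2 h3 => hΓ y h2 h3 h1) hc ha hb p3 q3 r3 s3
  have hinv : a⁻¹ = a := inv_eq_of_mul_eq_one_left ha
  have hbinv : b⁻¹ = b := inv_eq_of_mul_eq_one_left hb
  have hcinv : c⁻¹ = c := inv_eq_of_mul_eq_one_left hc
  have hz : ∀ x y : Γ, x⁻¹ = x → y⁻¹ = y → Subgroup.zpowers (x * y) = Subgroup.zpowers (y * x) := by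
    intro x y hx hy
    rw [← Subgroup.zpowers_inv, mul_inv_rev, hx, hy]
  rw [hz b a hbinv hinv] at u2
  rw [hz c a hcinv hinv] at u3
  rw [hz c b hcinv hbinv] at v3
  have e12 : z1 = z2 := cay_invol_unique _ u1 u2 z1s z2s z1n z2n
  have e13 : z1 * a = z3 := cay_invol_unique _ v1 u3 w1s z3s w1n z3n
  have e23 : z2 * b = z3 * c := cay_invol_unique _ v2 v3 w2s w3s w2n w3n
  -- a b = c
  have habc : a * b = c := by
    rw [← e12, ← e13] at e23
    have h1 : z1 * b = z1 * (a * c) := by rw [e23, mul_assoc]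
    have h2 := mul_left_cancel h1
    rw [h2, ← mul_assoc, ha, one_mul]
  have hcomm : a * b = b * a := by
    have h1 : (a * b)⁻¹ = a * b := by rw [habc, hcinv]
    rw [mul_inv_rev, hinv, hbinv] at h1
    exact h1.symm
  refine ha1 (hΓ a ?_ ?_ ?_)
  · rw [mul_assoc, mul_inv_cancel, mul_one, hinv]
  · rw [← hcomm, mul_assoc, mul_inv_cancel, mul_one, hinv]
  · rw [hinv, ← habc, mul_assoc a b a, ← hcomm, mul_inv_cancel_right]

end group

section inv3

variable {Γ : Type} [Group Γ]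

open Classical in
/-- the colours in the case of three involutions -/
noncomputable def colA (K X : Subgroup Γ) (a b g v t : Γ) : Fin 3 :=
  if t = a then (if g⁻¹ * v ∈ K then 1 else if g⁻¹ * v ∈ X then 2 else 0)
  else if t = b then (if g⁻¹ * v ∈ K then 0 else 1)
  else (if g⁻¹ * v ∈ X then 0 else 2)

theorem cay_three {S : Set Γ} {a b c : Γ} (hS : ∀ t, t ∈ S ↔ t = a ∨ t = b ∨ t = c) (ha : a * a = 1)
    (hb : b * b = 1) (hc : c * c = 1) (hab : a ≠ b) (hac : a ≠ c) (hbc : b ≠ c)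
    (h : ∀ y ∈ Subgroup.closure {a, b}, y ∈ Subgroup.closure {a, c} → y = 1 ∨ y = a) (haS : a ∈ S)
    (g : Γ) : Removable (cayEnds S) (cayEdge S g a haS) := by
  classical
  have hinv : a⁻¹ = a := inv_eq_of_mul_eq_one_left ha
  have hbinv : b⁻¹ = b := inv_eq_of_mul_eq_one_left hb
  have hcinv : c⁻¹ = c := inv_eq_of_mul_eq_one_left hc
  have haK : a ∈ Subgroup.closure {a, b} := Subgroup.subset_closure (by simp)
  have hbK : b ∈ Subgroup.closure {a, b} := Subgroup.subset_closure (by simp)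
  have haX : a ∈ Subgroup.closure {a, c} := Subgroup.subset_closure (by simp)
  have hcX : c ∈ Subgroup.closure {a, c} := Subgroup.subset_closure (by simp)
  have hinvS : ∀ t ∈ S, t⁻¹ ∈ S := by
    intro t ht
    rcases (hS t).1 ht with rfl | rfl | rfl
    · rwa [hinv]
    · rwa [hbinv]
    · rwa [hcinv]
  generalize Subgroup.closure {a, b} = K at h haK hbK
  generalize Subgroup.closure {a, c} = X at h haX hcX
  have mr : ∀ (H : Subgroup Γ) (v t : Γ), t ∈ H → (g⁻¹ * (v * t) ∈ H ↔ g⁻¹ * v ∈ H) := by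
    intro H v t ht
    rw [← mul_assoc]
    exact H.mul_mem_cancel_right ht
  have va : ∀ v, colA K X a b g v a =
      if g⁻¹ * v ∈ K then 1 else if g⁻¹ * v ∈ X then 2 else 0 := by
    intro v
    unfold colA
    rw [if_pos rfl]
  have vb : ∀ v, colA K X a b g v b = if g⁻¹ * v ∈ K then 0 else 1 := by
    intro v
    unfold colA
    rw [if_neg hab.symm, if_pos rfl]
  have vc : ∀ v, colA K X a b g v c = if g⁻¹ * v ∈ X then 0 else 2 := by
    intro v
    unfold colA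
    rw [if_neg hac.symm, if_neg hbc.symm]
  have dis : ∀ v, v ≠ g → v ≠ g * a → ¬ (g⁻¹ * v ∈ K ∧ g⁻¹ * v ∈ X) := by
    rintro v h1 h2 ⟨h3, h4⟩
    rcases h _ h3 h4 with h5 | h5
    · exact h1 (inv_mul_eq_one.1 h5).symm
    · exact h2 (by rw [← h5, mul_inv_cancel_left])
  refine cay_removable hinvS (colA K X a b g) ?_ g a haS ?_ ?_ ?_
  · intro v t ht
    rcases (hS t).1 ht with rfl | rfl | rfl
    · rw [hinv, va, va]
      simp only [mr K v _ haK, mr X v _ haX]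
    · rw [hbinv, vb, vb]
      simp only [mr K v _ hbK]
    · rw [hcinv, vc, vc]
      simp only [mr X v _ hcX]
  · intro v h1 h2 t ht t' ht' htt
    have h3 := dis v h1 h2
    rcases (hS t).1 ht with rfl | rfl | rfl <;> rcases (hS t').1 ht' with rfl | rfl | rfl <;>
      first
      | exact absurd rfl htt
      | (simp only [va, vb, vc]
         by_cases hK : g⁻¹ * v ∈ K
         · have hX : ¬ g⁻¹ * v ∈ X := fun hX => h3 ⟨hK, hX⟩
           simp [hK, hX]
         · by_cases hX : g⁻¹ * v ∈ X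
           · simp [hK, hX]
           · simp [hK, hX])
  · intro t ht t' ht' htt htt'
    have hK : g⁻¹ * g ∈ K := by rw [inv_mul_cancel]; exact K.one_mem
    have hX : g⁻¹ * g ∈ X := by rw [inv_mul_cancel]; exact X.one_mem
    rcases (hS t).1 ht with rfl | rfl | rfl <;> rcases (hS t').1 ht' with rfl | rfl | rfl <;>
      first
      | exact absurd rfl htt
      | exact absurd rfl htt'
      | (simp only [vb, vc, hK, hX, if_true])
  · intro t ht t' ht' htt htt'
    rw [hinv] at htt htt'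
    have hK : g⁻¹ * (g * a) ∈ K := by rw [inv_mul_cancel_left]; exact haK
    have hX : g⁻¹ * (g * a) ∈ X := by rw [inv_mul_cancel_left]; exact haX
    rcases (hS t).1 ht with rfl | rfl | rfl <;> rcases (hS t').1 ht' with rfl | rfl | rfl <;>
      first
      | exact absurd rfl htt
      | exact absurd rfl htt'
      | (simp only [vb, vc, hK, hX, if_true])

end inv3

section inv1

variable {Γ : Type} [Group Γ]

/-- the parity of the exponent on the cosets of a cyclic group of even order -/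
theorem cay_parity {x : Γ} (hx : Even (orderOf x)) :
    ∃ Q : Γ → Prop, ∀ v, Q (v * x) ↔ ¬ Q v := by
  have key : ∀ k : ℤ, x ^ k ∈ Subgroup.zpowers (x ^ 2) ↔ Even k := by
    intro k
    constructor
    · rintro ⟨l, hl⟩
      have h1 : x ^ (2 * l) = x ^ k := by
        rw [zpow_mul, zpow_ofNat]
        exact hl
      have h2 : x ^ (2 * l - k) = 1 := by
        rw [zpow_sub, h1, mul_inv_cancel]
      have h3 : (orderOf x : ℤ) ∣ 2 * l - k := orderOf_dvd_iff_zpow_eq_one.2 h2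
      obtain ⟨m, hm⟩ := hx
      obtain ⟨n, hn⟩ := h3
      refine ⟨l - m * n, ?_⟩
      have h4 : (orderOf x : ℤ) = m + m := by
        rw [hm]
        push_cast
        ring
      rw [h4] at hn
      linear_combination -hn
    · rintro ⟨l, hl⟩
      refine ⟨l, ?_⟩
      show (x ^ 2) ^ l = x ^ k
      rw [hl, ← two_mul, zpow_mul, zpow_ofNat]
  refine ⟨fun v => (Quotient.out (QuotientGroup.mk v : Γ ⧸ Subgroup.zpowers x))⁻¹ * v ∈
    Subgroup.zpowers (x ^ 2), fun v => ?_⟩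
  have h1 : (QuotientGroup.mk (v * x) : Γ ⧸ Subgroup.zpowers x) = QuotientGroup.mk v := by
    rw [eq_comm, QuotientGroup.eq, inv_mul_cancel_left]
    exact Subgroup.mem_zpowers x
  show _ ∈ _ ↔ ¬ (_ ∈ _)
  rw [h1]
  have h2 : (Quotient.out (QuotientGroup.mk v : Γ ⧸ Subgroup.zpowers x))⁻¹ * v ∈
      Subgroup.zpowers x := by
    rw [← QuotientGroup.eq]
    exact Quotient.out_eq _
  generalize Quotient.out (QuotientGroup.mk v : Γ ⧸ Subgroup.zpowers x) = w at h2
  rw [← mul_assoc]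
  obtain ⟨k, hk⟩ := h2
  have hk' : x ^ k = w⁻¹ * v := hk
  rw [← hk', ← zpow_add_one, key, key, Int.even_add_one]

theorem cay_pair {S : Set Γ} {s x : Γ} (hS : ∀ t, t ∈ S ↔ t = s ∨ t = x ∨ t = x⁻¹) (hs : s * s = 1)
    (hx : x ≠ x⁻¹) (hsx : s ≠ x) (hsx' : s ≠ x⁻¹) (heven : Even (orderOf x))
    (h : ∀ i : ℤ, (s * x) ^ i ∈ Subgroup.zpowers x → (s * x) ^ i = 1) (hxS : x ∈ S) (g : Γ) :
    Removable (cayEnds S) (cayEdge S g x hxS) := by
  classical
  have hsinv : s⁻¹ = s := inv_eq_of_mul_eq_one_left hs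
  have hx1 : x ≠ 1 := by
    rintro rfl
    exact hx (by simp)
  have hinvS : ∀ t ∈ S, t⁻¹ ∈ S := by
    intro t ht
    rw [hS] at ht ⊢
    rcases ht with rfl | rfl | rfl
    · left
      exact hsinv
    · right
      right
      rfl
    · right
      left
      exact inv_inv _
  obtain ⟨P0, hP0⟩ := cay_parity heven
  -- the cycle
  obtain ⟨Zt, hZt⟩ : ∃ Z : Set Γ, ∀ v, v ∈ Z ↔ ∃ i : ℤ, v = g * x * (s * x) ^ i :=
    ⟨{v | ∃ i : ℤ, v = g * x * (s * x) ^ i}, fun v => Iff.rfl⟩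
  obtain ⟨Zs, hZs⟩ : ∃ Z : Set Γ, ∀ v, v ∈ Z ↔ v * x ∈ Zt :=
    ⟨{v | v * x ∈ Zt}, fun v => Iff.rfl⟩
  have hZs' : ∀ v, v * x⁻¹ ∈ Zs ↔ v ∈ Zt := by
    intro v
    rw [hZs, inv_mul_cancel_right]
  have hsZ : ∀ v, v * s ∈ Zt ↔ v ∈ Zs := by
    intro v
    rw [hZs, hZt, hZt]
    constructor
    · rintro ⟨i, hi⟩
      refine ⟨i + 1, ?_⟩
      rw [zpow_add_one, ← mul_assoc, ← hi, ← mul_assoc, mul_assoc v s s, hs, mul_one]
    · rintro ⟨i, hi⟩
      refine ⟨i - 1, ?_⟩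
      rw [zpow_sub_one, ← mul_assoc, ← hi, mul_inv_rev, hsinv, ← mul_assoc, mul_inv_cancel_right]
  have hsZ' : ∀ v, v * s ∈ Zs ↔ v ∈ Zt := by
    intro v
    rw [← hsZ, mul_assoc, hs, mul_one]
  have hgx : g * x ∈ Zt := (hZt _).2 ⟨0, by simp⟩
  have hg : g ∈ Zs := (hZs _).2 hgx
  have huni : ∀ v ∈ Zt, ∀ w ∈ Zt, v⁻¹ * w ∈ Subgroup.zpowers x → v = w := by
    intro v hv w hw hvw
    obtain ⟨i, hi⟩ := (hZt v).1 hv
    obtain ⟨j, hj⟩ := (hZt w).1 hw
    have e : v⁻¹ * w = (s * x) ^ (-i + j) := by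
      rw [hi, hj, zpow_add, zpow_neg]
      group
    rw [e] at hvw
    have h1 := h _ hvw
    rw [← e] at h1
    exact (inv_mul_eq_one.1 h1)
  have huni' : ∀ v ∈ Zs, ∀ w ∈ Zs, v⁻¹ * w ∈ Subgroup.zpowers x → v = w := by
    intro v hv w hw hvw
    have h1 := huni _ ((hZs v).1 hv) _ ((hZs w).1 hw) (by
      have e : (v * x)⁻¹ * (w * x) = x⁻¹ * (v⁻¹ * w) * x := by group
      rw [e]
      exact Subgroup.mul_mem _ (Subgroup.mul_mem _ (Subgroup.inv_mem _ (Subgroup.mem_zpowers x)) hvw)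
        (Subgroup.mem_zpowers x))
    exact mul_right_cancel h1
  have hdis : ∀ v, v ∈ Zs → v ∉ Zt := by
    intro v hv hv'
    have h1 := huni _ hv' _ ((hZs v).1 hv) (by
      rw [inv_mul_cancel_left]
      exact Subgroup.mem_zpowers x)
    have h2 : v * 1 = v * x := by rw [mul_one]; exact h1
    exact hx1 (mul_left_cancel h2).symm
  -- the phases
  obtain ⟨C, hC⟩ : ∃ C : Γ → Prop, ∀ v, C v ↔ ∃ w ∈ Zs, w⁻¹ * v ∈ Subgroup.zpowers x ∧
      ¬ (P0 w ↔ w ≠ g) := ⟨fun v => _, fun v => Iff.rfl⟩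
  have hCx : ∀ v, C (v * x) ↔ C v := by
    intro v
    rw [hC, hC]
    have e : ∀ w : Γ, w⁻¹ * (v * x) ∈ Subgroup.zpowers x ↔ w⁻¹ * v ∈ Subgroup.zpowers x := by
      intro w
      rw [← mul_assoc]
      exact (Subgroup.zpowers x).mul_mem_cancel_right (Subgroup.mem_zpowers x)
    simp only [e]
  have hCZ : ∀ v ∈ Zs, (C v ↔ ¬ (P0 v ↔ v ≠ g)) := by
    intro v hv
    rw [hC]
    constructor
    · rintro ⟨w, hw, h1, h2⟩
      rwa [huni' w hw v hv h1] at h2
    · intro h2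
      exact ⟨v, hv, by rw [inv_mul_cancel]; exact Subgroup.one_mem _, h2⟩
  obtain ⟨Q, hQ⟩ : ∃ Q : Γ → Prop, ∀ v, Q v ↔ (P0 v ↔ ¬ C v) := ⟨fun v => _, fun v => Iff.rfl⟩
  have hQx : ∀ v, Q (v * x) ↔ ¬ Q v := by
    intro v
    have h1 := hP0 v
    have h2 := hCx v
    rw [hQ, hQ, h1, h2]
    tauto
  have hQx' : ∀ v, Q v ↔ ¬ Q (v * x⁻¹) := by
    intro v
    have h1 := hQx (v * x⁻¹)
    rwa [inv_mul_cancel_right] at h1
  have hQZ : ∀ v ∈ Zs, (Q v ↔ v ≠ g) := by
    intro v hv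
    have h1 := hCZ v hv
    rw [hQ, h1]
    tauto
  -- the colours
  obtain ⟨F, hF⟩ : ∃ F : Γ → Γ → Fin 3, ∀ v t, F v t =
      if t = s then (if v ∈ Zt ∨ v ∈ Zs then 0 else 2)
      else if t = x then (if v ∈ Zs then 2 else if Q v then 0 else 1)
      else (if v * x⁻¹ ∈ Zs then 2 else if Q (v * x⁻¹) then 0 else 1) := ⟨_, fun v t => rfl⟩
  have vs : ∀ v, F v s = if v ∈ Zt ∨ v ∈ Zs then 0 else 2 := by
    intro v
    rw [hF, if_pos rfl]
  have vx : ∀ v, F v x = if v ∈ Zs then 2 else if Q v then 0 else 1 := by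
    intro v
    rw [hF, if_neg hsx.symm, if_pos rfl]
  have vx' : ∀ v, F v x⁻¹ = if v * x⁻¹ ∈ Zs then 2 else if Q (v * x⁻¹) then 0 else 1 := by
    intro v
    rw [hF, if_neg hsx'.symm, if_neg hx.symm]
  refine cay_removable hinvS F ?_ g x hxS ?_ ?_ ?_
  · intro v t ht
    rcases (hS t).1 ht with rfl | rfl | rfl
    · rw [hsinv, vs, vs]
      simp only [hsZ, hsZ', or_comm]
    · rw [vx, vx', mul_inv_cancel_right]
    · rw [inv_inv, vx, vx']
  · intro v h1 h2 t ht t' ht' htt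
    have h5 := hQx' v
    have h6 := hZs' v
    have h7 : v * x⁻¹ ≠ g := fun h8 => h2 (by rw [← h8, inv_mul_cancel_right])
    have hcase : (F v s = 0 ∧ F v x = 2 ∧ F v x⁻¹ = 1) ∨ (F v s = 0 ∧ F v x = 1 ∧ F v x⁻¹ = 2) ∨
        (F v s = 2 ∧ F v x = 0 ∧ F v x⁻¹ = 1) ∨ (F v s = 2 ∧ F v x = 1 ∧ F v x⁻¹ = 0) := by
      rw [vs, vx, vx']
      by_cases hv : v ∈ Zs
      · left
        have hv' : v ∉ Zt := hdis v hv
        have hq : Q v := (hQZ v hv).2 h1
        have hq' : ¬ Q (v * x⁻¹) := h5.1 hq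
        have hv'' : v * x⁻¹ ∉ Zs := fun h8 => hv' (h6.1 h8)
        simp [hv, hv'', hq']
      · by_cases hv' : v ∈ Zt
        · right
          left
          have hv'' : v * x⁻¹ ∈ Zs := h6.2 hv'
          have hq : Q (v * x⁻¹) := (hQZ _ hv'').2 h7
          have hq' : ¬ Q v := fun h8 => h5.1 h8 hq
          simp [hv, hv', hv'', hq']
        · have hv'' : v * x⁻¹ ∉ Zs := fun h8 => hv' (h6.1 h8)
          right
          right
          by_cases hq : Q v
          · left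
            have hq' : ¬ Q (v * x⁻¹) := h5.1 hq
            simp [hv, hv', hv'', hq, hq']
          · right
            have hq' : Q (v * x⁻¹) := by
              by_contra h8
              exact hq (h5.2 h8)
            simp [hv, hv', hv'', hq, hq']
    rcases (hS t).1 ht with rfl | rfl | rfl <;> rcases (hS t').1 ht' with rfl | rfl | rfl <;>
      first
      | exact absurd rfl htt
      | (rcases hcase with ⟨e1, e2, e3⟩ | ⟨e1, e2, e3⟩ | ⟨e1, e2, e3⟩ | ⟨e1, e2, e3⟩ <;>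
          simp [e1, e2, e3])
  · have hq : ¬ Q g := fun h8 => (hQZ g hg).1 h8 rfl
    have hq' : Q (g * x⁻¹) := by
      by_contra h8
      exact hq ((hQx' g).2 h8)
    have hv'' : g * x⁻¹ ∉ Zs := fun h8 => hdis g hg ((hZs' g).1 h8)
    have e1 : F g s = 0 := by
      rw [vs, if_pos (Or.inr hg)]
    have e2 : F g x⁻¹ = 0 := by
      rw [vx', if_neg hv'', if_pos hq']
    intro t ht t' ht' htt htt'
    rcases (hS t).1 ht with rfl | rfl | rfl <;> rcases (hS t').1 ht' with rfl | rfl | rfl <;>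
      first
      | exact absurd rfl htt
      | exact absurd rfl htt'
      | simp [e1, e2]
  · have hq : ¬ Q g := fun h8 => (hQZ g hg).1 h8 rfl
    have hq' : Q (g * x) := (hQx g).2 hq
    have hv'' : g * x ∉ Zs := fun h8 => hdis _ h8 hgx
    have e1 : F (g * x) s = 0 := by
      rw [vs, if_pos (Or.inl hgx)]
    have e2 : F (g * x) x = 0 := by
      rw [vx, if_neg hv'', if_pos hq']
    intro t ht t' ht' htt htt'
    rcases (hS t).1 ht with rfl | rfl | rfl <;> rcases (hS t').1 ht' with rfl | rfl | rfl <;>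
      first
      | exact absurd rfl htt
      | exact absurd rfl htt'
      | simp [e1, e2]


/-- the natural colouring in the case of an involution and an element of even order -/
theorem cay_pair_col {S : Set Γ} {s x : Γ} (hS : ∀ t, t ∈ S ↔ t = s ∨ t = x ∨ t = x⁻¹) (hs : s * s = 1)
    (hx : x ≠ x⁻¹) (hsx : s ≠ x) (hsx' : s ≠ x⁻¹) (heven : Even (orderOf x)) :
    ∃ c : CayEdge S → Fin 3, IsCol (cayEnds S) c := by
  classical
  have hsinv : s⁻¹ = s := inv_eq_of_mul_eq_one_left hs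
  have hinvS : ∀ t ∈ S, t⁻¹ ∈ S := by
    intro t ht
    rw [hS] at ht ⊢
    rcases ht with rfl | rfl | rfl
    · left
      exact hsinv
    · right
      right
      rfl
    · right
      left
      exact inv_inv _
  obtain ⟨Q, hQx⟩ := cay_parity heven
  have hQx' : ∀ v, Q v ↔ ¬ Q (v * x⁻¹) := by
    intro v
    have h1 := hQx (v * x⁻¹)
    rwa [inv_mul_cancel_right] at h1
  obtain ⟨F, hF⟩ : ∃ F : Γ → Γ → Fin 3, ∀ v t, F v t =
      if t = s then 2 else if t = x then (if Q v then 0 else 1)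
      else (if Q (v * x⁻¹) then 0 else 1) := ⟨_, fun v t => rfl⟩
  have vs : ∀ v, F v s = 2 := by
    intro v
    rw [hF, if_pos rfl]
  have vx : ∀ v, F v x = if Q v then 0 else 1 := by
    intro v
    rw [hF, if_neg hsx.symm, if_pos rfl]
  have vx' : ∀ v, F v x⁻¹ = if Q (v * x⁻¹) then 0 else 1 := by
    intro v
    rw [hF, if_neg hsx'.symm, if_neg hx.symm]
  refine cay_isCol hinvS F ?_ ?_
  · intro v t ht
    rcases (hS t).1 ht with rfl | rfl | rfl
    · rw [hsinv, vs, vs]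
    · rw [vx, vx', mul_inv_cancel_right]
    · rw [inv_inv, vx, vx']
  · intro v t ht t' ht' htt
    have hcase : (F v s = 2 ∧ F v x = 0 ∧ F v x⁻¹ = 1) ∨ (F v s = 2 ∧ F v x = 1 ∧ F v x⁻¹ = 0) := by
      rw [vs, vx, vx']
      have h5 := hQx' v
      by_cases hq : Q v
      · left
        have hq' : ¬ Q (v * x⁻¹) := h5.1 hq
        simp [hq, hq']
      · right
        have hq' : Q (v * x⁻¹) := by
          by_contra h8
          exact hq (h5.2 h8)
        simp [hq, hq']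
    rcases (hS t).1 ht with rfl | rfl | rfl <;> rcases (hS t').1 ht' with rfl | rfl | rfl <;>
      first
      | exact absurd rfl htt
      | (rcases hcase with ⟨e1, e2, e3⟩ | ⟨e1, e2, e3⟩ <;> simp [e1, e2, e3])

/-- the natural colouring in the case of three involutions -/
theorem cay_three_col {S : Set Γ} {a b c : Γ} (hS : ∀ t, t ∈ S ↔ t = a ∨ t = b ∨ t = c)
    (ha : a * a = 1) (hb : b * b = 1) (hc : c * c = 1) (hab : a ≠ b) (hac : a ≠ c) (hbc : b ≠ c) :
    ∃ c : CayEdge S → Fin 3, IsCol (cayEnds S) c := by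
  classical
  have hinv : a⁻¹ = a := inv_eq_of_mul_eq_one_left ha
  have hbinv : b⁻¹ = b := inv_eq_of_mul_eq_one_left hb
  have hcinv : c⁻¹ = c := inv_eq_of_mul_eq_one_left hc
  have hinvS : ∀ t ∈ S, t⁻¹ ∈ S := by
    intro t ht
    rcases (hS t).1 ht with rfl | rfl | rfl
    · rwa [hinv]
    · rwa [hbinv]
    · rwa [hcinv]
  refine cay_isCol hinvS (fun _ t => if t = a then 0 else if t = b then 1 else 2) ?_ ?_
  · intro v t ht
    rcases (hS t).1 ht with rfl | rfl | rfl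
    · rw [hinv]
    · rw [hbinv]
    · rw [hcinv]
  · intro v t ht t' ht' htt
    rcases (hS t).1 ht with rfl | rfl | rfl <;> rcases (hS t').1 ht' with rfl | rfl | rfl <;>
      first
      | exact absurd rfl htt
      | simp [*, hab.symm, hac.symm, hbc.symm]

/-- the main theorem -/
theorem cay_main [Finite Γ] (S : Set Γ) (h1 : 1 ∉ S) (hinv : ∀ t ∈ S, t⁻¹ ∈ S) (hcard : S.ncard = 3)
    (hgen : Subgroup.closure S = ⊤) (heven : ∀ t ∈ S, Even (orderOf t))
    (hA : (∀ t ∈ S, t⁻¹ = t) → ∀ y : Γ, (∀ t ∈ S, t * y * t⁻¹ = y⁻¹) → y = 1)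
    (hB : (∃ t ∈ S, t⁻¹ ≠ t) → Subgroup.center Γ = ⊥) :
    (∃ c : CayEdge S → Fin 3, IsCol (cayEnds S) c) ∧
      ∃ (t : Γ) (ht : t ∈ S), ∀ g : Γ, Removable (cayEnds S) (cayEdge S g t ht) := by
  have inv_case : ∀ a b c : Γ, S = {a, b, c} → a⁻¹ = a → b⁻¹ = b → c⁻¹ = c → a ≠ b → a ≠ c → b ≠ c →
      (∃ c : CayEdge S → Fin 3, IsCol (cayEnds S) c) ∧
      ∃ (t : Γ) (ht : t ∈ S), ∀ g : Γ, Removable (cayEnds S) (cayEdge S g t ht) := by
    intro a b c hS ha hb hc hab hac hbc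
    have ha2 : a * a = 1 := by
      nth_rewrite 1 [← ha]
      exact inv_mul_cancel a
    have hb2 : b * b = 1 := by
      nth_rewrite 1 [← hb]
      exact inv_mul_cancel b
    have hc2 : c * c = 1 := by
      nth_rewrite 1 [← hc]
      exact inv_mul_cancel c
    have hS1 : ∀ t, t ∈ S ↔ t = a ∨ t = b ∨ t = c := by
      intro t
      rw [hS]
      simp
    have hS2 : ∀ t, t ∈ S ↔ t = b ∨ t = a ∨ t = c := by
      intro t
      rw [hS1]
      tauto
    have hS3 : ∀ t, t ∈ S ↔ t = c ∨ t = a ∨ t = b := by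
      intro t
      rw [hS1]
      tauto
    have haS : a ∈ S := (hS1 a).2 (Or.inl rfl)
    have hbS : b ∈ S := (hS2 b).2 (Or.inl rfl)
    have hcS : c ∈ S := (hS3 c).2 (Or.inl rfl)
    have hΓ : ∀ y : Γ, a * y * a⁻¹ = y⁻¹ → b * y * b⁻¹ = y⁻¹ → c * y * c⁻¹ = y⁻¹ → y = 1 := by
      intro y h2 h3 h4
      refine hA (fun t ht => ?_) y fun t ht => ?_
      · rcases (hS1 t).1 ht with rfl | rfl | rfl
        · exact ha
        · exact hb
        · exact hc
      · rcases (hS1 t).1 ht with rfl | rfl | rfl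
        · exact h2
        · exact h3
        · exact h4
    refine ⟨cay_three_col hS1 ha2 hb2 hc2 hab hac hbc, ?_⟩
    rcases cay_group hΓ ha2 hb2 hc2 (fun h => h1 (h ▸ haS)) with h | h | h
    · exact ⟨a, haS, fun g => cay_three hS1 ha2 hb2 hc2 hab hac hbc h haS g⟩
    · exact ⟨b, hbS, fun g => cay_three hS2 hb2 ha2 hc2 hab.symm hbc hac h hbS g⟩
    · exact ⟨c, hcS, fun g => cay_three hS3 hc2 ha2 hb2 hac.symm hbc.symm hab h hcS g⟩
  have pair_case : ∀ s x y : Γ, S = {s, x, y} → s⁻¹ = s → x⁻¹ = y → s ≠ x → s ≠ y → x ≠ y →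
      (∃ c : CayEdge S → Fin 3, IsCol (cayEnds S) c) ∧
      ∃ (t : Γ) (ht : t ∈ S), ∀ g : Γ, Removable (cayEnds S) (cayEdge S g t ht) := by
    intro s x y hS hs hxy hsx hsy hxy'
    subst hxy
    have hs2 : s * s = 1 := by
      nth_rewrite 1 [← hs]
      exact inv_mul_cancel s
    have hS1 : ∀ t, t ∈ S ↔ t = s ∨ t = x ∨ t = x⁻¹ := by
      intro t
      rw [hS]
      simp
    have hxS : x ∈ S := (hS1 x).2 (Or.inr (Or.inl rfl))
    refine ⟨cay_pair_col hS1 hs2 hxy' hsx hsy (heven x hxS), x, hxS, fun g =>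
      cay_pair hS1 hs2 hxy' hsx hsy (heven x hxS) ?_ hxS g⟩
    rintro i ⟨k, hk⟩
    have hk' : x ^ k = (s * x) ^ i := hk
    have hcx : x * (s * x) ^ i * x⁻¹ = (s * x) ^ i := by
      rw [← hk']
      group
    have hcx' : x⁻¹ * (s * x) ^ i * x⁻¹⁻¹ = (s * x) ^ i := by
      rw [← hk']
      group
    have hcs : s * (s * x) ^ i * s⁻¹ = (s * x) ^ i := by
      have e : s = s * x * x⁻¹ := by group
      calc s * (s * x) ^ i * s⁻¹ = (s * x * x⁻¹) * (s * x) ^ i * (s * x * x⁻¹)⁻¹ := by rw [← e]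
        _ = (s * x) * (x⁻¹ * (s * x) ^ i * x⁻¹⁻¹) * (s * x)⁻¹ := by group
        _ = (s * x) * (s * x) ^ i * (s * x)⁻¹ := by rw [hcx']
        _ = (s * x) ^ i := by
          rw [((Commute.refl (s * x)).zpow_right i).eq, mul_inv_cancel_right]
    have hall : ∀ g ∈ Subgroup.closure S, g * (s * x) ^ i = (s * x) ^ i * g := by
      intro g hg
      induction hg using Subgroup.closure_induction with
      | mem t ht =>
        rcases (hS1 t).1 ht with rfl | rfl | rfl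
        · exact mul_inv_eq_iff_eq_mul.1 hcs
        · exact mul_inv_eq_iff_eq_mul.1 hcx
        · exact mul_inv_eq_iff_eq_mul.1 hcx'
      | one => rw [one_mul, mul_one]
      | mul u v _ _ i1 i2 => rw [mul_assoc, i2, ← mul_assoc, i1, mul_assoc]
      | inv u _ i1 =>
        have h2 : Commute u ((s * x) ^ i) := i1
        exact h2.inv_left.eq
    have hcen : (s * x) ^ i ∈ Subgroup.center Γ := by
      rw [Subgroup.mem_center_iff]
      intro g
      exact hall g (by rw [hgen]; trivial)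
    rw [hB ⟨x, hxS, fun h => hxy' h.symm⟩, Subgroup.mem_bot] at hcen
    exact hcen
  obtain ⟨p, q, r, hpq, hpr, hqr, hS⟩ := Set.ncard_eq_three.1 hcard
  have hpS : p ∈ S := by rw [hS]; simp
  have hqS : q ∈ S := by rw [hS]; simp
  have hrS : r ∈ S := by rw [hS]; simp
  have hp := hinv p hpS
  have hq := hinv q hqS
  have hr := hinv r hrS
  rw [hS, Set.mem_insert_iff, Set.mem_insert_iff, Set.mem_singleton_iff] at hp hq hr
  have ii : ∀ u v : Γ, u⁻¹ = v → v⁻¹ = u := by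
    rintro u v rfl
    exact inv_inv u
  rcases hp with hp | hp | hp
  · rcases hq with hq | hq | hq
    · exact absurd ((ii _ _ hq).symm.trans hp) hpq.symm
    · rcases hr with hr | hr | hr
      · exact absurd ((ii _ _ hr).symm.trans hp) hpr.symm
      · exact absurd ((ii _ _ hr).symm.trans hq) hqr.symm
      · exact inv_case p q r hS hp hq hr hpq hpr hqr
    · exact pair_case p q r hS hp hq hpq hpr hqr
  · have hq' := ii _ _ hp
    rcases hr with hr | hr | hr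
    · exact absurd (hp.symm.trans (ii _ _ hr)) hqr
    · exact absurd (hq'.symm.trans (ii _ _ hr)) hpr
    · refine pair_case r p q ?_ hr hp hpr.symm hqr.symm hpq
      rw [hS]
      ext t
      simp only [Set.mem_insert_iff, Set.mem_singleton_iff]
      tauto
  · have hr' := ii _ _ hp
    rcases hq with hq | hq | hq
    · exact absurd (hp.symm.trans (ii _ _ hq)) hqr.symm
    · refine pair_case q p r ?_ hq hp hpq.symm hqr hpr
      rw [hS]
      ext t
      simp only [Set.mem_insert_iff, Set.mem_singleton_iff]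
      tauto
    · exact absurd (hr'.symm.trans (ii _ _ hq)) hpq

end inv1

end Pool.Agent.H.MP_bcbcf8_co
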