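import Mathlib
import Pool.Agent.H.MP_bcbcf8_co.Defs

/-!
# Removable edges of cubic Haar graphs
-/

set_option autoImplicit false

namespace Pool.Agent.H.MP_bcbcf8_co

/-- The two ends of the edge `(g, t)`, `t ∈ S`, of the Haar graph of `Γ` and `S`: the vertices are the pairs
`(g, i)` with `i` false or true, and `(g, false)` is joined to `(g t, true)` for every `t ∈ S`. -/
def haarEnds {Γ : Type} [Group Γ] (S : Set Γ) (e : Γ × S) : Sym2 (Γ × Bool) :=
  s((e.1, false), (e.1 * (e.2 : Γ), true))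

variable {Γ : Type} [Group Γ] {S : Set Γ}

theorem haar_mem_false (e : Γ × S) (v : Γ) : (v, false) ∈ haarEnds S e ↔ e.1 = v := by
  unfold haarEnds
  rw [Sym2.mem_iff, Prod.mk.injEq, Prod.mk.injEq]
  constructor
  · rintro (⟨h, -⟩ | ⟨-, h⟩)
    · exact h.symm
    · cases h
  · intro h
    exact Or.inl ⟨h.symm, rfl⟩

theorem haar_mem_true (e : Γ × S) (v : Γ) : (v, true) ∈ haarEnds S e ↔ e.1 = v * (e.2 : Γ)⁻¹ := by
  unfold haarEnds
  rw [Sym2.mem_iff, Prod.mk.injEq, Prod.mk.injEq, eq_mul_inv_iff_mul_eq]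
  constructor
  · rintro (⟨-, h⟩ | ⟨h, -⟩)
    · cases h
    · exact h.symm
  · intro h
    exact Or.inr ⟨h.symm, rfl⟩

theorem haar_isCol (hcard : S.ncard = 3) : ∃ c : Γ × S → Fin 3, IsCol (haarEnds S) c := by
  have hfin : S.Finite := Set.finite_of_ncard_ne_zero (by omega)
  have : Fintype S := hfin.fintype
  have h3 : Fintype.card S = 3 := by
    rw [← Nat.card_eq_fintype_card, Nat.card_coe_set_eq, hcard]
  have f : S ≃ Fin 3 := Fintype.equivFinOfCardEq h3
  refine ⟨fun e => f e.2, ?_⟩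
  rintro ⟨v, i⟩ e e' he he' hne h
  have h2 : e.2 = e'.2 := f.injective h
  apply hne
  cases i with
  | false =>
    rw [haar_mem_false] at he he'
    exact Prod.ext (he.trans he'.symm) h2
  | true =>
    rw [haar_mem_true] at he he'
    rw [h2] at he
    exact Prod.ext (he.trans he'.symm) h2

/-- the key lemma: the edges labelled by `a` -/
theorem haar_key {a b c : Γ} (hS : S = {a, b, c}) (hab : a ≠ b) (hac : a ≠ c) (hbc : b ≠ c)
    (h : ∀ y ∈ Subgroup.zpowers (a * b⁻¹), y ∈ Subgroup.zpowers (a * c⁻¹) → y = 1) (haS : a ∈ S)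
    (g : Γ) : Removable (haarEnds S) (g, ⟨a, haS⟩) := by
  classical
  have hS1 : ∀ t, t ∈ S ↔ t = a ∨ t = b ∨ t = c := by
    intro t
    rw [hS]
    simp
  have hp : a * b⁻¹ ∈ Subgroup.zpowers (a * b⁻¹) := Subgroup.mem_zpowers _
  have hr : a * c⁻¹ ∈ Subgroup.zpowers (a * c⁻¹) := Subgroup.mem_zpowers _
  generalize Subgroup.zpowers (a * b⁻¹) = P at h hp
  generalize Subgroup.zpowers (a * c⁻¹) = R at h hr
  have mb : ∀ v, g⁻¹ * (v * b⁻¹) ∈ P ↔ g⁻¹ * (v * a⁻¹) ∈ P := by
    intro v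
    have e : g⁻¹ * (v * b⁻¹) = g⁻¹ * (v * a⁻¹) * (a * b⁻¹) := by group
    rw [e]
    exact P.mul_mem_cancel_right hp
  have mc : ∀ v, g⁻¹ * (v * c⁻¹) ∈ R ↔ g⁻¹ * (v * a⁻¹) ∈ R := by
    intro v
    have e : g⁻¹ * (v * c⁻¹) = g⁻¹ * (v * a⁻¹) * (a * c⁻¹) := by group
    rw [e]
    exact R.mul_mem_cancel_right hr
  -- the colours of the edges `(v, t)`
  obtain ⟨F, hF⟩ : ∃ F : Γ → Γ → Fin 3, ∀ v t, F v t =
      if t = a then (if g⁻¹ * v ∈ P then 1 else if g⁻¹ * v ∈ R then 2 else 0)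
      else if t = b then (if g⁻¹ * v ∈ P then 0 else 1)
      else (if g⁻¹ * v ∈ R then 0 else 2) := ⟨_, fun v t => rfl⟩
  have va : ∀ v, F v a = if g⁻¹ * v ∈ P then 1 else if g⁻¹ * v ∈ R then 2 else 0 := by
    intro v
    rw [hF, if_pos rfl]
  have vb : ∀ v, F v b = if g⁻¹ * v ∈ P then 0 else 1 := by
    intro v
    rw [hF, if_neg hab.symm, if_pos rfl]
  have vc : ∀ v, F v c = if g⁻¹ * v ∈ R then 0 else 2 := by
    intro v
    rw [hF, if_neg hac.symm, if_neg hbc.symm]
  have dis : ∀ v, v ≠ g → ¬ (g⁻¹ * v ∈ P ∧ g⁻¹ * v ∈ R) := by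
    rintro v h1 ⟨h3, h4⟩
    exact h1 (inv_mul_eq_one.1 (h _ h3 h4)).symm
  -- at a vertex of the first kind
  have key0 : ∀ v, v ≠ g → ∀ t ∈ S, ∀ t' ∈ S, t ≠ t' → F v t ≠ F v t' := by
    intro v h1 t ht t' ht' htt
    have h3 := dis v h1
    rcases (hS1 t).1 ht with rfl | rfl | rfl <;> rcases (hS1 t').1 ht' with rfl | rfl | rfl <;>
      first
      | exact absurd rfl htt
      | (simp only [va, vb, vc]
         by_cases hK : g⁻¹ * v ∈ P
         · have hX : ¬ g⁻¹ * v ∈ R := fun hX => h3 ⟨hK, hX⟩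
           simp [hK, hX]
         · by_cases hX : g⁻¹ * v ∈ R
           · simp [hK, hX]
           · simp [hK, hX])
  -- the colours at a vertex of the second kind are those at `(v a⁻¹, false)`
  have tr : ∀ v, ∀ t ∈ S, F (v * t⁻¹) t = F (v * a⁻¹) t := by
    intro v t ht
    rcases (hS1 t).1 ht with rfl | rfl | rfl
    · rfl
    · rw [vb, vb]
      simp only [mb]
    · rw [vc, vc]
      simp only [mc]
  have key1 : ∀ t ∈ S, t ≠ a → F g t = 0 := by
    intro t ht hta
    have hP : g⁻¹ * g ∈ P := by rw [inv_mul_cancel]; exact P.one_mem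
    have hR : g⁻¹ * g ∈ R := by rw [inv_mul_cancel]; exact R.one_mem
    rcases (hS1 t).1 ht with rfl | rfl | rfl
    · exact absurd rfl hta
    · rw [vb, if_pos hP]
    · rw [vc, if_pos hR]
  have hne : ∀ (e : Γ × S), e ≠ (g, ⟨a, haS⟩) → e.1 = g → (e.2 : Γ) ≠ a := by
    intro e he h1 h2
    exact he (Prod.ext h1 (Subtype.ext h2))
  refine ⟨fun e => F e.1 (e.2 : Γ), ?_, ?_⟩
  · rintro ⟨v, i⟩ e e' hv he he' hee
    cases i with
    | false =>
      rw [haar_mem_false] at hv he he'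
      show F e.1 (e.2 : Γ) ≠ F e'.1 (e'.2 : Γ)
      rw [he, he']
      refine key0 v (fun h1 => hv h1.symm) _ e.2.2 _ e'.2.2 fun h2 => hee ?_
      exact Prod.ext (he.trans he'.symm) (Subtype.ext h2)
    | true =>
      rw [haar_mem_true] at hv he he'
      show F e.1 (e.2 : Γ) ≠ F e'.1 (e'.2 : Γ)
      rw [he, he', tr v _ e.2.2, tr v _ e'.2.2]
      refine key0 (v * a⁻¹) (fun h1 => hv h1.symm) _ e.2.2 _ e'.2.2 fun h2 => hee ?_
      rw [h2] at he
      exact Prod.ext (he.trans he'.symm) (Subtype.ext h2)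
  · rintro ⟨v, i⟩ e e' hv he he' hee hee'
    cases i with
    | false =>
      rw [haar_mem_false] at hv he he'
      show F e.1 (e.2 : Γ) = F e'.1 (e'.2 : Γ)
      have hv' : g = v := hv
      rw [← hv'] at he he'
      have h1 := hne e hee he
      have h2 := hne e' hee' he'
      rw [he, he', key1 _ e.2.2 h1, key1 _ e'.2.2 h2]
    | true =>
      rw [haar_mem_true] at hv he he'
      show F e.1 (e.2 : Γ) = F e'.1 (e'.2 : Γ)
      have hv' : g = v * a⁻¹ := hv
      have aux : ∀ f : Γ × S, f ≠ (g, ⟨a, haS⟩) → f.1 = v * (f.2 : Γ)⁻¹ → (f.2 : Γ) ≠ a := by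
        intro f hf hf1 hf2
        rw [hf2, ← hv'] at hf1
        exact hne f hf hf1 hf2
      rw [he, he', tr v _ e.2.2, tr v _ e'.2.2, ← hv', key1 _ e.2.2 (aux e hee he),
        key1 _ e'.2.2 (aux e' hee' he')]

/-- the main theorem -/
theorem haar_main (hZ : Subgroup.center Γ = ⊥) (hcard : S.ncard = 3)
    (hgen : Subgroup.closure {y | ∃ t ∈ S, ∃ u ∈ S, y = t * u⁻¹} = ⊤) (e : Γ × S) :
    Removable (haarEnds S) e := by
  have main : ∀ a b c : Γ, S = {a, b, c} → a ≠ b → a ≠ c → b ≠ c →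
      ∀ y ∈ Subgroup.zpowers (a * b⁻¹), y ∈ Subgroup.zpowers (a * c⁻¹) → y = 1 := by
    rintro a b c hS - - - y ⟨k, hk⟩ ⟨l, hl⟩
    have hk' : (a * b⁻¹) ^ k = y := hk
    have hl' : (a * c⁻¹) ^ l = y := hl
    have c1 : Commute (a * b⁻¹) y := by
      rw [← hk']
      exact (Commute.refl _).zpow_right k
    have c2 : Commute (a * c⁻¹) y := by
      rw [← hl']
      exact (Commute.refl _).zpow_right l
    have hc : ∀ x ∈ Subgroup.closure {y | ∃ t ∈ S, ∃ u ∈ S, y = t * u⁻¹}, x * y = y * x := by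
      intro x hx
      have h1 : ∀ t ∈ S, Commute (a * t⁻¹) y := by
        intro t ht
        rw [hS] at ht
        rcases ht with rfl | rfl | ht
        · rw [mul_inv_cancel]
          exact Commute.one_left y
        · exact c1
        · rw [Set.mem_singleton_iff] at ht
          rw [ht]
          exact c2
      induction hx using Subgroup.closure_induction with
      | mem x hx =>
        obtain ⟨t, ht, u, hu, rfl⟩ := hx
        have e : t * u⁻¹ = (a * t⁻¹)⁻¹ * (a * u⁻¹) := by group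
        rw [e]
        exact ((h1 t ht).inv_left.mul_left (h1 u hu)).eq
      | one => rw [one_mul, mul_one]
      | mul x x' _ _ i1 i2 => rw [mul_assoc, i2, ← mul_assoc, i1, mul_assoc]
      | inv x _ i1 =>
        have h2 : Commute x y := i1
        exact h2.inv_left.eq
    have hy : y ∈ Subgroup.center Γ := by
      rw [Subgroup.mem_center_iff]
      intro x
      exact hc x (by rw [hgen]; trivial)
    rw [hZ, Subgroup.mem_bot] at hy
    exact hy
  obtain ⟨p, q, r, hpq, hpr, hqr, hS⟩ := Set.ncard_eq_three.1 hcard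
  obtain ⟨g, t, ht⟩ := e
  have ht' := ht
  rw [hS, Set.mem_insert_iff, Set.mem_insert_iff, Set.mem_singleton_iff] at ht'
  rcases ht' with rfl | rfl | rfl
  · exact haar_key hS hpq hpr hqr (main _ _ _ hS hpq hpr hqr) ht g
  · have hS2 : S = {t, p, r} := by
      rw [hS, Set.insert_comm]
    exact haar_key hS2 hpq.symm hqr hpr (main _ _ _ hS2 hpq.symm hqr hpr) ht g
  · have hS2 : S = {t, p, q} := by
      rw [hS]
      ext x
      simp only [Set.mem_insert_iff, Set.mem_singleton_iff]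
      tauto
    exact haar_key hS2 hpr.symm hqr.symm hpq (main _ _ _ hS2 hpr.symm hqr.symm hpq) ht g

end Pool.Agent.H.MP_bcbcf8_co
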